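import Mathlib

/-!
# Anderson model on horns (helper234): statements of the lemma jobs

Each `S_xxx` is a job. The statements are independent of each other except BAR, which may use
GROW, CHAIN and WEG as hypotheses.
-/

set_option autoImplicit false

noncomputable section

namespace Pool.Agent.Q234.AH

open MeasureTheory

/-- Product of the transfer matrices of the one-dimensional equation
`(v_i - e) f_i - f_{i-1} - f_{i+1} = 0`; the matrix of the first entry of the list is applied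
first. -/
def tprod (e : ℝ) : List ℝ → Matrix (Fin 2) (Fin 2) ℝ
  | [] => 1
  | v :: l => tprod e l * !![v - e, -1; 1, 0]

/-- sum of the squares of the entries -/
def hs (A : Matrix (Fin 2) (Fin 2) ℝ) : ℝ := ∑ i, ∑ j, A i j ^ 2

/-- the potential values of a word -/
def wd (p q : ℝ) {ℓ : ℕ} (b : Fin ℓ → Bool) : List ℝ := List.ofFn fun i => if b i then p else q

/-- GROW: most words give a large transfer matrix, at every energy. -/
def S_grow : Prop := ∀ p q M : ℝ, p ≠ q → ∃ C ρ : ℝ, 0 < C ∧ 0 < ρ ∧ ρ < 1 ∧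
  ∀ e : ℝ, |e| ≤ M → ∀ (ℓ : ℕ) (R : ℝ), 0 < R →
    ((Finset.univ.filter fun b : Fin ℓ → Bool => hs (tprod e (wd p q b)) ≤ R ^ 2).card : ℝ) ≤
      C * R ^ 2 * ρ ^ ℓ * 2 ^ ℓ

/-- CHAIN: if the energy (which is `0` here, `c i = v i - e`) is not close to the spectrum of the
finite chain and the transfer matrix is large, then the end-to-end Green function is small. -/
def S_chain : Prop := ∀ (ℓ : ℕ) (c : ℕ → ℝ) (δ R : ℝ), 0 < δ → δ ≤ 1 → 2 / δ ≤ R →
  (∀ g : ℕ → ℝ, g 0 = 0 → g (ℓ + 1) = 0 → δ ^ 2 * ∑ i ∈ Finset.range ℓ, g (i + 1) ^ 2 ≤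
    ∑ i ∈ Finset.range ℓ, (c i * g (i + 1) - g i - g (i + 2)) ^ 2) →
  R ^ 2 ≤ hs (tprod 0 (List.ofFn fun i : Fin ℓ => c i)) →
  ∀ f : ℕ → ℝ, (∀ i < ℓ, c i * f (i + 1) - f i - f (i + 2) = 0) → f (ℓ + 1) = 0 →
    |f ℓ| ≤ 8 / (R * δ ^ 2) * |f 0|

/-- WEG: the energies close to the spectrum of a symmetric matrix. -/
def S_weg : Prop := ∀ (ι : Type) [Fintype ι] [DecidableEq ι] (A : Matrix ι ι ℝ), A.IsSymm →
  ∀ δ : ℝ, 0 < δ → ∃ Bad : Set ℝ, MeasurableSet Bad ∧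
    volume Bad ≤ ENNReal.ofReal (2 * δ * Fintype.card ι) ∧
    ∀ E, E ∉ Bad → ∀ f : ι → ℝ,
      δ ^ 2 * ∑ i, f i ^ 2 ≤ ∑ i, (A.mulVec f i - E * f i) ^ 2

/-- WEAK: weak type bound for the entries of the resolvent of a symmetric matrix (no power of the
size of the matrix), outside a set of energies of measure `s`. -/
def S_weak : Prop := ∀ M : ℝ, 1 ≤ M → ∃ C : ℝ, 1 ≤ C ∧
  ∀ (ι : Type) [Fintype ι] [DecidableEq ι] (A : Matrix ι ι ℝ), A.IsSymm →
  ∀ (x₀ : ι) (Z : Finset ι) (s : ℝ), 0 < s → s ≤ 1 → Z.Nonempty →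
  ∃ Bad : Set ℝ, MeasurableSet Bad ∧ volume Bad ≤ ENNReal.ofReal s ∧
    ∀ E : ℝ, |E| ≤ M → E ∉ Bad →
      (∀ f : ι → ℝ, (s / (4 * Fintype.card ι)) ^ 2 * ∑ i, f i ^ 2 ≤
        ∑ i, (A.mulVec f i - E * f i) ^ 2) ∧
      ∀ r : ι → ℝ, (∀ x, A.mulVec r x - E * r x = if x = x₀ then 1 else 0) →
        ∀ z ∈ Z, |r z| ≤
          C * Z.card * (Real.log (Fintype.card ι) + Real.log (1 / s) + 1) / s

/-- BAR: a barrier. `Y` is the cross-section, `A` the transverse operator. There is a word `b`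
such that, outside a set of energies of measure `s`, the solutions in `ℓ` layers with potentials
very close to those of the word decay by the factor `s` from the layer `0` to the layer `ℓ` (with
Dirichlet condition in the layer `ℓ + 1`). -/
def S_bar : Prop := ∀ p q M : ℝ, p ≠ q → 1 ≤ M → ∃ C : ℝ, 1 ≤ C ∧
  ∀ (Y : Type) [Fintype Y] [DecidableEq Y] [Nonempty Y] (A : Matrix Y Y ℝ), A.IsSymm →
  (∀ f : Y → ℝ, ∑ y, (A.mulVec f y) ^ 2 ≤ M ^ 2 * ∑ y, f y ^ 2) →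
  ∀ s : ℝ, 0 < s → s ≤ 1 →
  ∀ ℓ : ℕ, C * (Real.log (Fintype.card Y) + Real.log (1 / s) + 1) ≤ ℓ →
  ∃ (b : Fin ℓ → Bool) (Bad : Set ℝ), MeasurableSet Bad ∧ volume Bad ≤ ENNReal.ofReal s ∧
    ∀ E : ℝ, |E| ≤ M → E ∉ Bad → ∀ W : ℕ → Y → ℝ,
      (∀ (i : Fin ℓ) (y : Y), |W i y - (if b i then p else q)| ≤ Real.exp (-(C * ℓ))) →
      ∀ f : ℕ → Y → ℝ,
        (∀ i < ℓ, ∀ y, W i y * f (i + 1) y + A.mulVec (f (i + 1)) y - f i y - f (i + 2) y =
          E * f (i + 1) y) →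
        (∀ y, f (ℓ + 1) y = 0) →
        ∑ y, f ℓ y ^ 2 ≤ s ^ 2 * ∑ y, f 0 y ^ 2

/-- PROB: for an iid field, if in each generation `k` there are `n k` disjoint finite sets of at
most `c k` sites, and the local target sets have probability at least `π k`, and
`∑ exp (- n k * π k ^ c k) < ∞`, then almost surely for all large `k` one of the sets of the
generation `k` is on target. -/
def S_prob : Prop := ∀ (X : Type) [Countable X] [DecidableEq X] (ν : Measure ℝ)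
  [IsProbabilityMeasure ν] (n c : ℕ → ℕ) (π : ℕ → ℝ) (B : (k : ℕ) → Fin (n k) → Finset X)
  (I : (k : ℕ) → Fin (n k) → X → Set ℝ),
  (∀ k, 0 ≤ π k) → (∀ k j x, MeasurableSet (I k j x)) →
  (∀ k j x, ENNReal.ofReal (π k) ≤ ν (I k j x)) →
  (∀ k j, (B k j).card ≤ c k) → (∀ k i j, i ≠ j → Disjoint (B k i) (B k j)) →
  Summable (fun k => Real.exp (-((n k : ℝ) * π k ^ c k))) →
  ∀ᵐ ω ∂(Measure.infinitePi fun _ : X => ν), ∀ᶠ k in Filter.atTop,
    ∃ j : Fin (n k), ∀ x ∈ B k j, ω x ∈ I k j x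

end Pool.Agent.Q234.AH
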