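import Pool.Agent.Q184.AH.Grow
import Pool.Agent.H140.AH.AHBar
import Pool.Agent.H140.AH.AHChain
import Pool.Agent.H140.AH.AHWeak

/-!
# Anderson model on horns: BAR
-/

set_option autoImplicit false

namespace Pool.Agent.Q234.AH

theorem bar : S_bar :=
  Pool.Agent.H140.AH.bar Pool.Agent.Q184.AH.grow Pool.Agent.H140.AH.chain Pool.Agent.H140.AH.weg

end Pool.Agent.Q234.AH
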