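import Pool.Agent.H12R2.And10

/-!
# Anderson model on horns: comparison of the resolvents and convergence almost everywhere
-/

set_option autoImplicit false

noncomputable section

namespace Pool.Agent.Q234.AH

open Complex MeasureTheory Filter
open scoped ENNReal Topology InnerProductSpace
open Pool.Agent.H12R2.And

section
variable {F : Type*} [NormedAddCommGroup F] [InnerProductSpace ℂ F] [CompleteSpace F]

lemma Rz_sub {T : F →L[ℂ] F} (hT : IsSelfAdjoint T) {z : ℂ} (hz : z.im ≠ 0) (ψ : F) :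
    Rz T z (T ψ - z • ψ) = ψ := by
  have h := Ring.inverse_mul_cancel _ (isUnit_sub hT hz)
  have h2 := congrArg (fun A : F →L[ℂ] F => A ψ) h
  simpa [Rz] using h2

lemma gg_eq {T : F →L[ℂ] F} (hT : IsSelfAdjoint T) (ψ : F) {ε : ℝ} (hε : 0 < ε) (E : ℝ) :
    gg T ψ ε E = ENNReal.ofReal (ε * ‖Rz T ((E : ℂ) + ε * I) ψ‖ ^ 2) := by
  unfold gg
  rw [im_inner hT (by rw [zim]; exact hε.ne'), zim]

omit [CompleteSpace F] in
lemma norm_sum_sq_le {ι : Type*} (D : Finset ι) (c : ι → ℝ) (w : ι → F) :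
    ‖∑ v ∈ D, (c v : ℂ) • w v‖ ^ 2 ≤ (∑ v ∈ D, c v ^ 2) * ∑ v ∈ D, ‖w v‖ ^ 2 := by
  have h1 : ‖∑ v ∈ D, (c v : ℂ) • w v‖ ≤ ∑ v ∈ D, |c v| * ‖w v‖ := by
    refine (norm_sum_le _ _).trans (Finset.sum_le_sum fun v _ => ?_)
    rw [norm_smul, Complex.norm_real, Real.norm_eq_abs]
  calc _ ≤ (∑ v ∈ D, |c v| * ‖w v‖) ^ 2 := pow_le_pow_left₀ (norm_nonneg _) h1 2
    _ ≤ (∑ v ∈ D, |c v| ^ 2) * ∑ v ∈ D, ‖w v‖ ^ 2 := Finset.sum_mul_sq_le_sq_mul_sq _ _ _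
    _ = _ := by simp only [sq_abs]

theorem det_bound {T : F →L[ℂ] F} (hT : IsSelfAdjoint T) {ι : Type*} (D : Finset ι) (u r : F)
    (c : ι → ℝ) (w : ι → F) {E ε : ℝ} (hε : 0 < ε)
    (h : T r - (E : ℂ) • r = u + ∑ v ∈ D, (c v : ℂ) • w v) :
    gg T u ε E ≤ ENNReal.ofReal (6 * ε * ‖r‖ ^ 2) +
      ENNReal.ofReal (3 * ∑ v ∈ D, c v ^ 2) * ∑ v ∈ D, gg T (w v) ε E := by
  obtain ⟨z, hz⟩ : ∃ z : ℂ, z = (E : ℂ) + ε * I := ⟨_, rfl⟩
  have hzi : z.im = ε := by rw [hz, zim]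
  have hz0 : z.im ≠ 0 := by rw [hzi]; exact hε.ne'
  have e1 : T r - z • r = u + ∑ v ∈ D, (c v : ℂ) • w v - ((ε : ℂ) * I) • r := by
    rw [← h, hz, add_smul]; abel
  have e2 : Rz T z u = r - ∑ v ∈ D, (c v : ℂ) • Rz T z (w v) + ((ε : ℂ) * I) • Rz T z r := by
    have h1 := Rz_sub hT hz0 r
    rw [e1, map_sub, map_add, map_sum, map_smul] at h1
    simp only [map_smul] at h1
    obtain ⟨a, ha⟩ : ∃ a : F, a = Rz T z u := ⟨_, rfl⟩
    obtain ⟨b, hb⟩ : ∃ b : F, b = ∑ v ∈ D, (c v : ℂ) • Rz T z (w v) := ⟨_, rfl⟩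
    obtain ⟨e, he⟩ : ∃ e : F, e = ((ε : ℂ) * I) • Rz T z r := ⟨_, rfl⟩
    rw [← ha, ← hb, ← he] at h1
    rw [← ha, ← hb, ← he, ← h1]
    abel
  have hRr : ‖((ε : ℂ) * I) • Rz T z r‖ ≤ ‖r‖ := by
    rw [norm_smul, norm_mul, Complex.norm_I, mul_one, Complex.norm_real, Real.norm_eq_abs,
      abs_of_pos hε]
    have h1 := norm_Rz_le hT (by rw [hzi]; exact hε) r
    rw [hzi, le_div_iff₀ hε] at h1
    linarith
  have hsum := norm_sum_sq_le D c fun v => Rz T z (w v)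
  have hn : ‖Rz T z u‖ ^ 2 ≤ 6 * ‖r‖ ^ 2 +
      3 * ((∑ v ∈ D, c v ^ 2) * ∑ v ∈ D, ‖Rz T z (w v)‖ ^ 2) := by
    have h1 : ‖Rz T z u‖ ≤ ‖r‖ + ‖∑ v ∈ D, (c v : ℂ) • Rz T z (w v)‖ + ‖r‖ := by
      rw [e2]
      exact (norm_add_le _ _).trans (add_le_add (norm_sub_le _ _) hRr)
    have h2 := norm_nonneg (∑ v ∈ D, (c v : ℂ) • Rz T z (w v))
    have h3 := norm_nonneg r
    have h4 := pow_le_pow_left₀ (norm_nonneg _) h1 2
    nlinarith [sq_nonneg (‖r‖ - ‖∑ v ∈ D, (c v : ℂ) • Rz T z (w v)‖)]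
  rw [gg_eq hT u hε E, ← hz]
  have e3 : ∑ v ∈ D, gg T (w v) ε E = ENNReal.ofReal (ε * ∑ v ∈ D, ‖Rz T z (w v)‖ ^ 2) := by
    rw [Finset.mul_sum, ENNReal.ofReal_sum_of_nonneg (fun v _ => by positivity)]
    refine Finset.sum_congr rfl fun v _ => ?_
    rw [gg_eq hT (w v) hε E, ← hz]
  rw [e3, ← ENNReal.ofReal_mul (by positivity), ← ENNReal.ofReal_add (by positivity)
    (by positivity)]
  apply ENNReal.ofReal_le_ofReal
  have h5 := mul_le_mul_of_nonneg_left hn hε.le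
  calc ε * ‖Rz T z u‖ ^ 2 ≤ _ := h5
    _ = _ := by ring

/-- integral of the bound -/
theorem int_gg {T : F →L[ℂ] F} (hT : IsSelfAdjoint T) {ι : Type*} (D : Finset ι) (u : F)
    (w : ι → F) {G : Set ℝ} (hG : MeasurableSet G) {ε N A B : ℝ} (hε : 0 < ε) (hεN : ε ≤ N)
    (hN : 2 * ‖T‖ ≤ N) (hGN : G ⊆ Set.Ioc (-N) N) (hA : 0 ≤ A) (hB : 0 ≤ B)
    (hw : ∀ v ∈ D, ‖w v‖ ≤ 1)
    (h : ∀ E ∈ G, ∃ (r : F) (c : ι → ℝ), T r - (E : ℂ) • r = u + ∑ v ∈ D, (c v : ℂ) • w v ∧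
      ‖r‖ ^ 2 ≤ A ∧ ∑ v ∈ D, c v ^ 2 ≤ B) :
    ∫⁻ E in G, gg T u ε E ≤ ENNReal.ofReal (12 * ε * A * N + 24 * B * D.card) := by
  have hN0 : 0 < N := hε.trans_le hεN
  have h1 : ∀ E ∈ G, gg T u ε E ≤ ENNReal.ofReal (6 * ε * A) +
      ENNReal.ofReal (3 * B) * ∑ v ∈ D, gg T (w v) ε E := by
    intro E hE
    obtain ⟨r, c, h1, h2, h3⟩ := h E hE
    refine (det_bound hT D u r c w hε h1).trans (add_le_add ?_ (mul_le_mul_left ?_ _))
    · apply ENNReal.ofReal_le_ofReal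
      gcongr
    · apply ENNReal.ofReal_le_ofReal
      linarith
  calc ∫⁻ E in G, gg T u ε E ≤ ∫⁻ E in G, (ENNReal.ofReal (6 * ε * A) +
      ENNReal.ofReal (3 * B) * ∑ v ∈ D, gg T (w v) ε E) := setLIntegral_mono' hG h1
    _ = ENNReal.ofReal (6 * ε * A) * volume G +
        ENNReal.ofReal (3 * B) * ∑ v ∈ D, ∫⁻ E in G, gg T (w v) ε E := by
      rw [lintegral_add_left measurable_const, setLIntegral_const, lintegral_const_mul,
        lintegral_finsetSum]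
      · intro v _
        exact gg_meas hT (w v) hε
      · exact Finset.measurable_sum _ fun v _ => gg_meas hT (w v) hε
    _ ≤ ENNReal.ofReal (6 * ε * A) * ENNReal.ofReal (2 * N) +
        ENNReal.ofReal (3 * B) * ∑ v ∈ D, ENNReal.ofReal 8 := by
      refine add_le_add (mul_le_mul_right ?_ _) (mul_le_mul_right ?_ _)
      · refine (measure_mono hGN).trans ?_
        rw [Real.volume_Ioc]
        apply ENNReal.ofReal_le_ofReal
        linarith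
      · refine Finset.sum_le_sum fun v hv => (gg_int hT (w v) hε hεN hN hGN).trans ?_
        apply ENNReal.ofReal_le_ofReal
        have := pow_le_one₀ (n := 2) (norm_nonneg (w v)) (hw v hv)
        linarith
    _ = _ := by
      rw [Finset.sum_const, nsmul_eq_mul, ← ENNReal.ofReal_natCast D.card,
        ← ENNReal.ofReal_mul (by positivity), ← ENNReal.ofReal_mul (by positivity),
        ← ENNReal.ofReal_mul (by positivity), ← ENNReal.ofReal_add (by positivity)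
        (by positivity)]
      congr 1
      ring

/-- convergence almost everywhere along the sequence `ε k` -/
theorem ae_conv {T : F →L[ℂ] F} (hT : IsSelfAdjoint T) (u : F) {S : Set ℝ}
    (hS : MeasurableSet S) {ε : ℕ → ℝ} (hε : ∀ k, 0 < ε k) {G : ℕ → Set ℝ} (hG : ∀ k, MeasurableSet (G k))
    (hGS : ∀ k, G k ⊆ S) {a b : ℕ → ℝ} (ha : Summable a) (hb : Summable b) (ha0 : ∀ k, 0 ≤ a k)
    (hb0 : ∀ k, 0 ≤ b k) {k₀ : ℕ}
    (h1 : ∀ k, k₀ ≤ k → volume (S \ G k) ≤ ENNReal.ofReal (a k))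
    (h2 : ∀ k, k₀ ≤ k → ∫⁻ E in G k, gg T u (ε k) E ≤ ENNReal.ofReal (b k)) :
    ∀ᵐ E ∂(volume.restrict S), Tendsto (fun k => gg T u (ε k) E) atTop (𝓝 0) := by
  have hs : ∀ {x : ℕ → ℝ}, Summable x → (∀ k, 0 ≤ x k) →
      ∑' k, ENNReal.ofReal (x (k + k₀)) ≠ ∞ := by
    intro x hx hx0
    have := (summable_nat_add_iff k₀).2 hx
    rw [← ENNReal.ofReal_tsum_of_nonneg (fun k => hx0 _) this]
    exact ENNReal.ofReal_ne_top
  have hm : ∀ k, Measurable fun E => (G k).indicator (fun E => gg T u (ε k) E) E := fun k =>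
    (gg_meas hT u (hε k)).indicator (hG k)
  have e1 : ∀ᵐ E ∂(volume.restrict S), ∀ᶠ k in atTop, E ∉ S \ G (k + k₀) := by
    refine ae_eventually_notMem (lt_of_le_of_lt (ENNReal.tsum_le_tsum fun k => ?_)
      (hs ha ha0).lt_top).ne
    exact (Measure.restrict_apply_le _ _).trans (h1 _ (Nat.le_add_left _ _))
  have e3 : ∀ᵐ E ∂(volume.restrict S),
      ∑' k, (G (k + k₀)).indicator (fun E => gg T u (ε (k + k₀)) E) E < ∞ := by
    refine ae_lt_top (Measurable.tsum fun k => hm _) ?_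
    rw [lintegral_tsum fun k => (hm _).aemeasurable]
    refine (lt_of_le_of_lt (ENNReal.tsum_le_tsum fun k => ?_) (hs hb hb0).lt_top).ne
    rw [lintegral_indicator (hG _), Measure.restrict_restrict (hG _),
      Set.inter_eq_left.2 (hGS _)]
    exact h2 _ (Nat.le_add_left _ _)
  filter_upwards [e1, e3, ae_restrict_mem hS] with E h1 h3 hES
  rw [← tendsto_add_atTop_iff_nat k₀]
  refine (ENNReal.tendsto_atTop_zero_of_tsum_ne_top h3.ne).congr' ?_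
  filter_upwards [h1] with k hk
  rw [Set.indicator_of_mem]
  by_contra h
  exact hk ⟨hES, h⟩

/-- outside the spectrum -/
lemma gg_far {T : F →L[ℂ] F} (hT : IsSelfAdjoint T) (φ : F) {N : ℝ} (hN0 : 0 < N)
    (hN : 2 * ‖T‖ ≤ N) {ε : ℕ → ℝ} (hε : ∀ k, 0 < ε k) (hε0 : Tendsto ε atTop (𝓝 0)) {E : ℝ}
    (hE : N ≤ |E|) : Tendsto (fun k => gg T φ (ε k) E) atTop (𝓝 0) := by
  have h0 : Tendsto (fun k => ENNReal.ofReal (ε k * (2 * ‖φ‖ / N) ^ 2)) atTop (𝓝 0) := by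
    have := (ENNReal.tendsto_ofReal (hε0.mul_const ((2 * ‖φ‖ / N) ^ 2)))
    simpa using this
  refine tendsto_of_tendsto_of_tendsto_of_le_of_le tendsto_const_nhds h0 (fun _ => bot_le)
    fun k => ?_
  have hz0 : ((E : ℂ) + ε k * I).im ≠ 0 := by rw [zim]; exact (hε k).ne'
  have hz : N ≤ ‖(E : ℂ) + ε k * I‖ := by
    refine hE.trans ?_
    have := Complex.abs_re_le_norm ((E : ℂ) + ε k * I)
    simpa using this
  change gg T φ (ε k) E ≤ _
  rw [gg_eq hT φ (hε k) E]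
  apply ENNReal.ofReal_le_ofReal
  have h1 := norm_Rz_le' hT hz0 (hN.trans hz) φ
  have h2 : 2 * ‖φ‖ / ‖(E : ℂ) + ε k * I‖ ≤ 2 * ‖φ‖ / N := by gcongr
  have h3 := pow_le_pow_left₀ (norm_nonneg _) (h1.trans h2) 2
  exact mul_le_mul_of_nonneg_left h3 (hε k).le

/-- the conclusion on the whole line -/
theorem sing_of_conv {T : F →L[ℂ] F} (hT : IsSelfAdjoint T) {N : ℝ} (hN0 : 0 < N)
    (hN : 2 * ‖T‖ ≤ N) {ε : ℕ → ℝ} (hε : ∀ k, 0 < ε k) (hεN : ∀ k, ε k ≤ N)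
    (hε0 : Tendsto ε atTop (𝓝 0)) {𝒟 : Set F}
    (h𝒟 : ∀ (ψ : F) (δ : ℝ), 0 < δ → ∃ φ ∈ 𝒟, ‖ψ - φ‖ < δ)
    (h : ∀ φ ∈ 𝒟, ∀ᵐ E ∂(volume.restrict (Set.Ioc (-N) N)),
      Tendsto (fun k => gg T φ (ε k) E) atTop (𝓝 0))
    (ψ : F) {μ : Measure ℝ} [IsFiniteMeasure μ]
    (hμ : ∀ z : ℂ, z.im ≠ 0 → (∫ x, ((x : ℂ) - z)⁻¹ ∂μ) = inner ℂ ψ (Rz T z ψ)) :
    μ ⟂ₘ (volume : Measure ℝ) := by
  have key : ∀ n : ℕ, ∀ᵐ E ∂(volume.restrict (Set.Ioc (-(N + n)) (N + n))),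
      μ.rnDeriv volume E = 0 := by
    intro n
    refine singular_on hT (N := N + n) subset_rfl (by linarith [(Nat.cast_nonneg n : (0:ℝ) ≤ n)])
      hε (fun k => (hεN k).trans (by linarith [(Nat.cast_nonneg n : (0:ℝ) ≤ n)])) hε0 h𝒟 ?_ ψ hμ
    intro φ hφ
    have h1 := (ae_restrict_iff' measurableSet_Ioc).1 (h φ hφ)
    rw [ae_restrict_iff' measurableSet_Ioc]
    filter_upwards [h1] with E hE _
    by_cases hEN : E ∈ Set.Ioc (-N) N
    · exact hE hEN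
    · refine gg_far hT φ hN0 hN hε hε0 ?_
      rw [Set.mem_Ioc, not_and_or, not_lt, not_le] at hEN
      rcases hEN with h | h
      · rw [abs_of_nonpos (by linarith)]; linarith
      · rw [abs_of_pos (by linarith)]; exact h.le
  have hall : ∀ᵐ E ∂(volume : Measure ℝ), μ.rnDeriv volume E = 0 := by
    have h1 : ∀ᵐ E ∂(volume : Measure ℝ), ∀ n : ℕ, E ∈ Set.Ioc (-(N + n)) (N + n) →
        μ.rnDeriv volume E = 0 := by
      rw [ae_all_iff]
      intro n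
      exact (ae_restrict_iff' measurableSet_Ioc).1 (key n)
    filter_upwards [h1] with E hE
    obtain ⟨n, hn⟩ := exists_nat_gt |E|
    refine hE n ⟨?_, ?_⟩
    · have := neg_abs_le E
      linarith
    · have := le_abs_self E
      linarith
  have h2 := mutuallySingular_of_rnDeriv (μ := μ) (S := Set.univ) MeasurableSet.univ
    (by rw [Measure.restrict_univ]; exact hall)
  rwa [Measure.restrict_univ] at h2

end

end Pool.Agent.Q234.AH
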