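import Pool.Agent.Q234.AH.Step

/-!
# Anderson model on horns: windows
-/

set_option autoImplicit false

noncomputable section

namespace Pool.Agent.Q234.AH

variable {d : ℕ}

/-- start of the window `j` -/
def st (a ℓ j : ℕ) : ℕ := a + j * (ℓ + 2)

/-- flat windows -/
def Fl (w : ℕ → ℕ) (a ℓ J : ℕ) : Finset ℕ :=
  (Finset.range J).filter fun j => w (st a ℓ j) = w (st a ℓ j + ℓ + 1)

lemma nonflat_card {w : ℕ → ℕ} (hw : Monotone w) (a ℓ J : ℕ) :
    ((Finset.range J).filter fun j => ¬ w (st a ℓ j) = w (st a ℓ j + ℓ + 1)).card + w a ≤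
      w (st a ℓ J) := by
  induction J with
  | zero => rw [Finset.range_zero, Finset.filter_empty]; simp [st]
  | succ J ih =>
    have e1 : st a ℓ (J + 1) = st a ℓ J + ℓ + 1 + 1 := by unfold st; ring
    have h1 : w (st a ℓ J) ≤ w (st a ℓ J + ℓ + 1) := hw (by omega)
    have h2 : w (st a ℓ J + ℓ + 1) ≤ w (st a ℓ (J + 1)) := hw (by omega)
    rw [Finset.range_add_one, Finset.filter_insert]
    split_ifs with h
    · omega
    · rw [Finset.card_insert_of_notMem (by simp)]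
      omega

lemma Fl_card {w : ℕ → ℕ} (hw : Monotone w) (a ℓ J : ℕ) :
    J ≤ (Fl w a ℓ J).card + w (st a ℓ J) := by
  have h1 := nonflat_card hw a ℓ J
  have h2 := Finset.card_filter_add_card_filter_not (s := Finset.range J)
    (fun j => w (st a ℓ j) = w (st a ℓ j + ℓ + 1))
  rw [Finset.card_range] at h2
  unfold Fl
  omega

/-- the sites of the window -/
def Win (d a ℓ m : ℕ) : Finset (V d) :=
  ((Finset.range ℓ) ×ˢ Bx d m).image fun z => pt ((a + (z.1 + 1) : ℕ) : ℤ) z.2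

lemma Win_card (d a ℓ m : ℕ) : (Win d a ℓ m).card ≤ ℓ * (2 * m + 1) ^ d := by
  unfold Win
  refine Finset.card_image_le.trans ?_
  rw [Finset.card_product, Finset.card_range, card_Bx]

lemma pt_mem_Win {a ℓ m i : ℕ} (hi : i < ℓ) {y : Fin d → ℤ} (hy : y ∈ Bx d m) :
    pt ((a + (i + 1) : ℕ) : ℤ) y ∈ Win d a ℓ m := by
  unfold Win
  exact Finset.mem_image.2 ⟨(i, y), Finset.mem_product.2 ⟨Finset.mem_range.2 hi, hy⟩, rfl⟩

lemma Win_zero {a ℓ m : ℕ} {x : V d} (h : x ∈ Win d a ℓ m) :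
    (a : ℤ) + 1 ≤ x 0 ∧ x 0 ≤ a + ℓ := by
  unfold Win at h
  obtain ⟨⟨i, y⟩, h1, rfl⟩ := Finset.mem_image.1 h
  have h2 := Finset.mem_range.1 (Finset.mem_product.1 h1).1
  simp only [pt, Fin.cons_zero]
  push_cast
  omega

lemma Win_disj {a a' ℓ m m' : ℕ} (h : a + ℓ + 1 ≤ a' ∨ a' + ℓ + 1 ≤ a) :
    Disjoint (Win d a ℓ m) (Win d a' ℓ m') := by
  rw [Finset.disjoint_left]
  intro x h1 h2
  have h3 := Win_zero h1
  have h4 := Win_zero h2
  omega

/-- index of the layer in the window -/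
def idx (a : ℕ) (x : V d) : ℕ := (x 0).toNat - (a + 1)

lemma idx_pt (a i : ℕ) (y : Fin d → ℤ) : idx a (pt ((a + (i + 1) : ℕ) : ℤ) y) = i := by
  simp only [idx, pt, Fin.cons_zero, Int.toNat_natCast]
  omega

/-- target sets -/
def tgt (p q r : ℝ) {ℓ : ℕ} (b : Fin ℓ → Bool) (a : ℕ) (x : V d) : Set ℝ :=
  if h : idx a x < ℓ then
    Set.Icc ((if b ⟨idx a x, h⟩ then p else q) - r) ((if b ⟨idx a x, h⟩ then p else q) + r)
  else Set.univ

lemma tgt_meas (p q r : ℝ) {ℓ : ℕ} (b : Fin ℓ → Bool) (a : ℕ) (x : V d) :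
    MeasurableSet (tgt p q r b a x) := by
  unfold tgt
  by_cases h : idx a x < ℓ
  · rw [dif_pos h]
    exact measurableSet_Icc
  · rw [dif_neg h]
    exact MeasurableSet.univ

lemma tgt_pt {p q r : ℝ} {ℓ : ℕ} {b : Fin ℓ → Bool} {a : ℕ} {i : Fin ℓ} {y : Fin d → ℤ} {t : ℝ}
    (h : t ∈ tgt p q r b a (pt ((a + ((i : ℕ) + 1) : ℕ) : ℤ) y : V d)) :
    |t - (if b i then p else q)| ≤ r := by
  unfold tgt at h
  have e := idx_pt (d := d) a i y
  rw [dif_pos (by rw [e]; exact i.2)] at h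
  have e2 : (⟨idx a (pt ((a + ((i : ℕ) + 1) : ℕ) : ℤ) y), by rw [e]; exact i.2⟩ : Fin ℓ) = i :=
    Fin.ext e
  rw [e2] at h
  rw [abs_le]
  constructor
  · linarith [h.1]
  · linarith [h.2]

end Pool.Agent.Q234.AH
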