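import Pool.Agent.Q234.AH.Horn

/-!
# Anderson model on horns: from unit vectors to all vectors
-/

set_option autoImplicit false

noncomputable section

namespace Pool.Agent.Q234.AH

open Complex MeasureTheory Filter
open scoped ENNReal Topology InnerProductSpace
open Pool.Agent.H12R2.And (Rz gg gg_add im_inner zim)

variable {d : ℕ}

section
variable {F : Type*} [NormedAddCommGroup F] [InnerProductSpace ℂ F] [CompleteSpace F]

lemma gg_smul {T : F →L[ℂ] F} (hT : IsSelfAdjoint T) (c : ℂ) (φ : F) {ε : ℝ} (hε : 0 < ε)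
    (E : ℝ) : gg T (c • φ) ε E = ENNReal.ofReal (‖c‖ ^ 2) * gg T φ ε E := by
  rw [gg_eq hT _ hε, gg_eq hT _ hε, ← ENNReal.ofReal_mul (by positivity), map_smul, norm_smul]
  congr 1
  ring

lemma gg_zero (T : F →L[ℂ] F) (ε E : ℝ) : gg T (0 : F) ε E = 0 := by
  unfold gg
  simp

/-- vectors for which the convergence holds at `E` -/
def CV (T : F →L[ℂ] F) (ε : ℕ → ℝ) (E : ℝ) (φ : F) : Prop :=
  Tendsto (fun k => gg T φ (ε k) E) atTop (𝓝 0)

lemma CV.add {T : F →L[ℂ] F} (hT : IsSelfAdjoint T) {ε : ℕ → ℝ} (hε : ∀ k, 0 < ε k) {E : ℝ}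
    {φ χ : F} (h1 : CV T ε E φ) (h2 : CV T ε E χ) : CV T ε E (φ + χ) := by
  have h3 : Tendsto (fun k => 2 * gg T φ (ε k) E + 2 * gg T χ (ε k) E) atTop (𝓝 0) := by
    have := (ENNReal.Tendsto.const_mul (a := 2) h1 (Or.inr (by norm_num))).add
      (ENNReal.Tendsto.const_mul (a := 2) h2 (Or.inr (by norm_num)))
    simpa using this
  exact tendsto_of_tendsto_of_tendsto_of_le_of_le tendsto_const_nhds h3 (fun _ => bot_le)
    fun k => gg_add hT φ χ (hε k) E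

lemma CV.smul {T : F →L[ℂ] F} (hT : IsSelfAdjoint T) {ε : ℕ → ℝ} (hε : ∀ k, 0 < ε k) {E : ℝ}
    (c : ℂ) {φ : F} (h1 : CV T ε E φ) : CV T ε E (c • φ) := by
  have := (ENNReal.Tendsto.const_mul (a := ENNReal.ofReal (‖c‖ ^ 2)) h1
    (Or.inr ENNReal.ofReal_ne_top))
  rw [mul_zero] at this
  refine this.congr fun k => ?_
  rw [gg_smul hT c φ (hε k)]

lemma CV.sum {T : F →L[ℂ] F} (hT : IsSelfAdjoint T) {ε : ℕ → ℝ} (hε : ∀ k, 0 < ε k) {E : ℝ}
    {ι : Type*} (s : Finset ι) (φ : ι → F) (h : ∀ i ∈ s, CV T ε E (φ i)) :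
    CV T ε E (∑ i ∈ s, φ i) := by
  classical
  induction s using Finset.induction_on with
  | empty =>
    unfold CV
    simp only [Finset.sum_empty, gg_zero]
    exact tendsto_const_nhds
  | insert a s ha ih =>
    rw [Finset.sum_insert ha]
    exact CV.add hT hε (h a (Finset.mem_insert_self _ _))
      (ih fun i hi => h i (Finset.mem_insert_of_mem hi))

end

/-- the conclusion from the unit vectors -/
theorem sing_of_single {S : Set (V d)} {T : lp (fun _ : S => ℂ) 2 →L[ℂ] lp (fun _ : S => ℂ) 2}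
    (hT : IsSelfAdjoint T) {N : ℝ} (hN0 : 0 < N) (hN : 2 * ‖T‖ ≤ N)
    {ε : ℕ → ℝ} (hε : ∀ k, 0 < ε k) (hεN : ∀ k, ε k ≤ N) (hε0 : Tendsto ε atTop (𝓝 0))
    (h : ∀ x : S, ∀ᵐ E ∂(volume.restrict (Set.Ioc (-N) N)),
      Tendsto (fun k => gg T (lp.single 2 x (1 : ℂ)) (ε k) E) atTop (𝓝 0))
    (ψ : lp (fun _ : S => ℂ) 2) {μ : Measure ℝ} [IsFiniteMeasure μ]
    (hμ : ∀ z : ℂ, z.im ≠ 0 → (∫ x, ((x : ℂ) - z)⁻¹ ∂μ) = inner ℂ ψ (Rz T z ψ)) :
    μ ⟂ₘ (volume : Measure ℝ) := by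
  classical
  refine sing_of_conv hT hN0 hN hε hεN hε0
    (𝒟 := {φ | ∃ s : Finset S, ∃ c : S → ℂ, φ = ∑ i ∈ s, c i • lp.single 2 i (1 : ℂ)})
    ?_ ?_ ψ hμ
  · intro ψ δ hδ
    have h := lp.hasSum_single (p := 2) (by norm_num) ψ
    have h2 := (Metric.tendsto_nhds.1 h) δ hδ
    obtain ⟨s, hs⟩ := h2.exists
    refine ⟨∑ i ∈ s, lp.single 2 i (ψ i), ⟨s, fun i => ψ i, ?_⟩, ?_⟩
    · refine Finset.sum_congr rfl fun i _ => ?_
      rw [← lp.single_smul]
      simp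
    · rw [← dist_eq_norm, dist_comm]; exact hs
  · rintro φ ⟨s, c, rfl⟩
    have h3 : ∀ᵐ E ∂(volume.restrict (Set.Ioc (-N) N)), ∀ x ∈ s,
        CV T ε E (lp.single 2 x (1 : ℂ)) := by
      rw [Filter.eventually_all_finset]
      intro x _
      exact h x
    filter_upwards [h3] with E hE
    exact CV.sum hT hε s _ fun i hi => CV.smul hT hε (c i) (hE i hi)

end Pool.Agent.Q234.AH
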