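import Mathlib

/-!
# Anderson model on horns: numerical lemmas
-/

set_option autoImplicit false

noncomputable section

namespace Pool.Agent.Q234.AH

open Filter

lemma log_two_bds : (1 / 2 : ℝ) < Real.log 2 ∧ Real.log 2 < 1 := by
  have h1 := Real.log_two_gt_d9
  have h2 := Real.log_two_lt_d9
  constructor <;> linarith

lemma x_ge (k : ℕ) : 1 / 2 ≤ Real.log ((k : ℝ) + 2) := by
  have h1 := log_two_bds.1
  have h2 : Real.log 2 ≤ Real.log ((k : ℝ) + 2) :=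
    Real.log_le_log (by norm_num) (by linarith [(Nat.cast_nonneg k : (0 : ℝ) ≤ k)])
  linarith

lemma freq_scale {w : ℕ → ℕ} (hw : Monotone w) (d : ℕ) {θ c : ℝ} (hθ : 0 ≤ θ) (hc : 0 < c)
    (h : ∃ᶠ n : ℕ in atTop, ((2 * w n + 1 : ℕ) : ℝ) ^ d * Real.log (Real.log n) *
      (1 + θ * Real.log (Real.log n)) ≤ c * Real.log n) :
    ∃ᶠ k : ℕ in atTop, ((2 * w (2 ^ (k + 1)) + 1 : ℕ) : ℝ) ^ d * Real.log ((k : ℝ) + 2) *
      (1 + θ * Real.log ((k : ℝ) + 2)) ≤ 8 * c * (k + 1) := by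
  rw [frequently_atTop] at h ⊢
  intro N0
  obtain ⟨n, hn1, hn2⟩ := h (2 ^ (max N0 10 + 1))
  have hn0 : n ≠ 0 := by
    rintro rfl
    have : 0 < 2 ^ (max N0 10 + 1) := by positivity
    omega
  obtain ⟨L, hL⟩ : ∃ L, L = Nat.log 2 n := ⟨_, rfl⟩
  have hLn : max N0 10 + 1 ≤ L := by
    rw [hL]
    exact (Nat.le_log_iff_pow_le (by norm_num) hn0).2 hn1
  obtain ⟨k, hk⟩ : ∃ k, L = k + 1 := ⟨L - 1, by omega⟩
  have hk1 : 2 ^ (k + 1) ≤ n := by
    rw [← hk, hL]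
    exact Nat.pow_log_le_self 2 hn0
  have hk2 : n < 2 ^ (k + 2) := by
    have := Nat.lt_pow_succ_log_self (b := 2) (by norm_num) n
    rw [← hL, hk] at this
    exact this
  have hk10 : 10 ≤ k := by
    have := le_max_right N0 10
    omega
  have hkN : N0 ≤ k := by
    have := le_max_left N0 10
    omega
  refine ⟨k, hkN, ?_⟩
  have hk10' : (10 : ℝ) ≤ k := by exact_mod_cast hk10
  obtain ⟨l1, l2⟩ := log_two_bds
  have hn0' : (0 : ℝ) < n := by exact_mod_cast Nat.pos_of_ne_zero hn0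
  have e1 : ((k : ℝ) + 1) / 2 ≤ Real.log n := by
    have h1 : Real.log ((2 : ℝ) ^ (k + 1)) ≤ Real.log n := by
      apply Real.log_le_log (by positivity)
      exact_mod_cast hk1
    rw [Real.log_pow] at h1
    push_cast at h1
    nlinarith
  have e2 : Real.log n ≤ 2 * (k + 1) := by
    have h1 : Real.log n ≤ Real.log ((2 : ℝ) ^ (k + 2)) := by
      apply Real.log_le_log hn0'
      exact_mod_cast hk2.le
    rw [Real.log_pow] at h1
    push_cast at h1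
    nlinarith
  obtain ⟨x, hx⟩ : ∃ x, x = Real.log ((k : ℝ) + 2) := ⟨_, rfl⟩
  have hx0 : 1 / 2 ≤ x := by rw [hx]; exact x_ge k
  have e3 : x / 2 ≤ Real.log (Real.log n) := by
    have h1 : Real.log (((k : ℝ) + 1) / 2) ≤ Real.log (Real.log n) :=
      Real.log_le_log (by positivity) e1
    have h2 : x ≤ Real.log ((((k : ℝ) + 1) / 2) ^ 2) := by
      rw [hx]
      apply Real.log_le_log (by positivity)
      nlinarith
    rw [Real.log_pow] at h2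
    push_cast at h2
    linarith
  have hP : ((2 * w (2 ^ (k + 1)) + 1 : ℕ) : ℝ) ^ d ≤ ((2 * w n + 1 : ℕ) : ℝ) ^ d := by
    apply pow_le_pow_left₀ (by positivity)
    have := hw hk1
    exact_mod_cast (by omega : 2 * w (2 ^ (k + 1)) + 1 ≤ 2 * w n + 1)
  obtain ⟨P, hP'⟩ : ∃ P, P = ((2 * w (2 ^ (k + 1)) + 1 : ℕ) : ℝ) ^ d := ⟨_, rfl⟩
  obtain ⟨Q, hQ⟩ : ∃ Q, Q = ((2 * w n + 1 : ℕ) : ℝ) ^ d := ⟨_, rfl⟩
  obtain ⟨y, hy⟩ : ∃ y, y = Real.log (Real.log n) := ⟨_, rfl⟩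
  rw [← hP', ← hQ] at hP
  rw [← hy] at e3
  rw [← hQ, ← hy] at hn2
  rw [← hP', ← hx]
  have hP0 : 0 ≤ P := by rw [hP']; positivity
  have s1 : P * (x / 2) ≤ Q * y := mul_le_mul hP e3 (by linarith) (hP0.trans hP)
  have s2 : 1 + θ * (x / 2) ≤ 1 + θ * y := by
    have := mul_le_mul_of_nonneg_left e3 hθ
    linarith
  have s3 : P * (x / 2) * (1 + θ * (x / 2)) ≤ Q * y * (1 + θ * y) := by
    refine mul_le_mul s1 s2 (by positivity) ?_
    exact mul_nonneg (hP0.trans hP) (by linarith)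
  have s4 : c * Real.log n ≤ c * (2 * (k + 1)) := mul_le_mul_of_nonneg_left e2 hc.le
  have s5 : P * x * (1 + θ * x) ≤ 4 * (P * (x / 2) * (1 + θ * (x / 2))) := by
    have : 0 ≤ P * x := mul_nonneg hP0 (by linarith)
    have h2 : 0 ≤ θ * x := mul_nonneg hθ (by linarith)
    nlinarith [mul_nonneg this h2]
  linarith

lemma exp_big (B : ℝ) : ∀ᶠ k : ℕ in atTop, B * ((k : ℝ) + 2) ^ 2 ≤ Real.exp (k / 4) := by
  obtain ⟨K, hK⟩ := exists_nat_gt (384 * 4 * |B| + 2)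
  filter_upwards [eventually_ge_atTop K] with k hk
  have hk' : (384 * 4 * |B| + 2 : ℝ) ≤ k := hK.le.trans (by exact_mod_cast hk)
  have h1 := Real.pow_div_factorial_le_exp ((k : ℝ) / 4) (by positivity) 3
  have h2 : ((Nat.factorial 3 : ℕ) : ℝ) = 6 := by norm_num [Nat.factorial]
  rw [h2] at h1
  refine le_trans ?_ h1
  have hB : B ≤ |B| := le_abs_self B
  have hB0 : 0 ≤ |B| := abs_nonneg B
  have hk2 : (2 : ℝ) ≤ k := by linarith
  have h3 : ((k : ℝ) + 2) ^ 2 ≤ 4 * k ^ 2 := by nlinarith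
  calc B * ((k : ℝ) + 2) ^ 2 ≤ |B| * (4 * k ^ 2) := by
        refine (mul_le_mul_of_nonneg_right hB (by positivity)).trans ?_
        exact mul_le_mul_of_nonneg_left h3 hB0
    _ ≤ ((k : ℝ) / 384) * k ^ 2 := by
        have : 4 * |B| ≤ (k : ℝ) / 384 := by linarith
        nlinarith [sq_nonneg (k : ℝ)]
    _ = ((k : ℝ) / 4) ^ 3 / 6 := by ring

lemma two_pow_ge (k : ℕ) : Real.exp (k / 2) ≤ 2 ^ k := by
  have h1 : (2 : ℝ) ^ k = Real.exp (k * Real.log 2) := by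
    rw [mul_comm, Real.exp_mul, Real.exp_log (by norm_num)]
    norm_num
  rw [h1]
  apply Real.exp_le_exp.2
  have := log_two_bds.1
  nlinarith [(Nat.cast_nonneg k : (0 : ℝ) ≤ k)]

/-- the number of windows is large enough -/
lemma num_main (A : ℝ) (hA : 1 ≤ A) : ∀ᶠ k : ℕ in atTop, ∀ ℓ W : ℕ,
    (ℓ : ℝ) ≤ A * Real.log ((k : ℝ) + 2) → W ≤ k + 2 →
    (k : ℝ) ≤ ((2 ^ k / (ℓ + 2) : ℕ) - (W : ℝ)) * Real.exp (-(((k : ℝ) + 1) / 8)) := by
  filter_upwards [exp_big (2 * (A + 2)), eventually_ge_atTop 1] with k hk hk1 ℓ W hℓ hW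
  have hk1' : (1 : ℝ) ≤ k := by exact_mod_cast hk1
  have hW' : (W : ℝ) ≤ k + 2 := by exact_mod_cast hW
  have hx : Real.log ((k : ℝ) + 2) ≤ k + 2 := by
    have := Real.log_le_sub_one_of_pos (by positivity : (0 : ℝ) < (k : ℝ) + 2)
    linarith
  have hl : (ℓ : ℝ) + 2 ≤ (A + 2) * (k + 2) := by
    have := mul_le_mul_of_nonneg_left hx (by linarith : 0 ≤ A)
    nlinarith
  have hdiv : (2 : ℝ) ^ k / (ℓ + 2) - 1 ≤ ((2 ^ k / (ℓ + 2) : ℕ) : ℝ) := by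
    have h1 := Nat.lt_div_mul_add (a := 2 ^ k) (b := ℓ + 2) (by omega)
    have h2 : (2 : ℝ) ^ k < ((2 ^ k / (ℓ + 2) : ℕ) : ℝ) * (ℓ + 2) + (ℓ + 2) := by
      exact_mod_cast h1
    have h3 : (0 : ℝ) < (ℓ : ℝ) + 2 := by positivity
    rw [sub_le_iff_le_add, div_le_iff₀ h3]
    nlinarith
  obtain ⟨e, he⟩ : ∃ e, e = Real.exp (((k : ℝ) + 1) / 8) := ⟨_, rfl⟩
  have he1 : 1 ≤ e := by
    rw [he]
    exact Real.one_le_exp (by positivity)
  have hbig : (k : ℝ) * e + k + 3 ≤ (2 : ℝ) ^ k / (ℓ + 2) := by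
    rw [le_div_iff₀ (by positivity)]
    have h1 : (k : ℝ) * e + k + 3 ≤ 2 * (k + 2) * e := by nlinarith
    calc ((k : ℝ) * e + k + 3) * (ℓ + 2) ≤ (2 * (k + 2) * e) * ((A + 2) * (k + 2)) := by
          apply mul_le_mul h1 hl (by positivity) (by positivity)
      _ = (2 * (A + 2) * ((k : ℝ) + 2) ^ 2) * e := by ring
      _ ≤ Real.exp (k / 4) * Real.exp (((k : ℝ) + 1) / 8) := by
          rw [he]
          exact mul_le_mul_of_nonneg_right hk (Real.exp_pos _).le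
      _ = Real.exp (k / 4 + ((k : ℝ) + 1) / 8) := (Real.exp_add _ _).symm
      _ ≤ Real.exp (k / 2) := by
          apply Real.exp_le_exp.2
          linarith
      _ ≤ 2 ^ k := two_pow_ge k
  have h5 : (k : ℝ) * e ≤ ((2 ^ k / (ℓ + 2) : ℕ) : ℝ) - W := by linarith
  have h6 : Real.exp (-(((k : ℝ) + 1) / 8)) = e⁻¹ := by rw [he, Real.exp_neg]
  rw [h6, ← div_eq_mul_inv, le_div_iff₀ (by linarith)]
  exact h5

end Pool.Agent.Q234.AH
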