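import Pool.Agent.Q234.AH.Scale
import Pool.Agent.Q234.AH.Lin
import Pool.Agent.Q234.AH.Num
import Pool.Agent.Q234.AH.Flat

/-!
# Anderson model on horns: the deterministic conclusion
-/

set_option autoImplicit false

noncomputable section

namespace Pool.Agent.Q234.AH

open Complex MeasureTheory Filter
open scoped ENNReal Topology InnerProductSpace
open Pool.Agent.H12R2.And (Rz gg)

variable {d : ℕ}

lemma num_bound {k : ℕ} {N Cw n mm : ℝ} (hN : 1 ≤ N) (hCw : 1 ≤ Cw) (hn1 : 1 ≤ n)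
    (hn : n ≤ 2 ^ (k + 1) * ((k : ℝ) + 2)) (hm0 : 0 ≤ mm) (hm : mm ≤ (k : ℝ) + 2) :
    12 * (1 / (16 ^ k * ((k : ℝ) + 2) ^ 8)) * (1 / ((1 / ((k : ℝ) + 2) ^ 2) / (4 * n)) ^ 2) * N +
      24 * ((1 / ((k : ℝ) + 2) ^ 10) ^ 2 * (mm * (KK Cw mm n (1 / ((k : ℝ) + 2) ^ 2)) ^ 2)) * mm ≤
      (768 * N + 600 * Cw ^ 2) / ((k : ℝ) + 2) ^ 2 := by
  obtain ⟨X, hX⟩ : ∃ X : ℝ, X = (k : ℝ) + 2 := ⟨_, rfl⟩
  have hX2 : 2 ≤ X := by rw [hX]; linarith [(Nat.cast_nonneg k : (0 : ℝ) ≤ k)]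
  have hX0 : 0 < X := by linarith
  have hlogX : Real.log X ≤ X := by
    have := Real.log_le_sub_one_of_pos hX0
    linarith
  have hlogX0 : 0 ≤ Real.log X := Real.log_nonneg (by linarith)
  have hn0 : 0 < n := by linarith
  rw [← hX] at hn hm ⊢
  have t1 : 12 * (1 / (16 ^ k * X ^ 8)) * (1 / ((1 / X ^ 2) / (4 * n)) ^ 2) * N ≤
      768 * N / X ^ 2 := by
    have e1 : 12 * (1 / (16 ^ k * X ^ 8)) * (1 / ((1 / X ^ 2) / (4 * n)) ^ 2) * N =
        192 * n ^ 2 * N / (16 ^ k * X ^ 4) := by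
      field_simp
      ring
    rw [e1, div_le_div_iff₀ (by positivity) (by positivity)]
    have h1 : n ^ 2 ≤ (2 ^ (k + 1) * X) ^ 2 := pow_le_pow_left₀ hn0.le hn 2
    have h2 : (2 ^ (k + 1) * X) ^ 2 = 4 * 4 ^ k * X ^ 2 := by
      have : ((4 : ℝ)) ^ k = (2 ^ k) ^ 2 := by rw [← pow_mul, mul_comm, pow_mul]; norm_num
      rw [this]; ring
    have h3 : (4 : ℝ) ^ k ≤ 16 ^ k := pow_le_pow_left₀ (by norm_num) (by norm_num) k
    rw [h2] at h1
    calc 192 * n ^ 2 * N * X ^ 2 ≤ 192 * (4 * 4 ^ k * X ^ 2) * N * X ^ 2 := by gcongr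
      _ ≤ 192 * (4 * 16 ^ k * X ^ 2) * N * X ^ 2 := by gcongr
      _ = 768 * N * (16 ^ k * X ^ 4) := by ring
  have hlogn : Real.log n ≤ 2 * X := by
    have h1 : Real.log n ≤ Real.log (2 ^ (k + 1) * X) := Real.log_le_log hn0 hn
    rw [Real.log_mul (by positivity) hX0.ne', Real.log_pow] at h1
    have h2 := log_two_bds.2
    push_cast at h1
    have h3 : ((k : ℝ) + 1) * Real.log 2 ≤ X := by
      rw [hX]
      have : (0 : ℝ) ≤ (k : ℝ) + 1 := by positivity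
      nlinarith [log_two_bds.1]
    linarith
  have hlogn0 : 0 ≤ Real.log n := Real.log_nonneg hn1
  have hlogs : Real.log (1 / (1 / X ^ 2)) ≤ 2 * X := by
    rw [one_div_one_div, Real.log_pow]
    push_cast
    linarith
  have hlogs0 : 0 ≤ Real.log (1 / (1 / X ^ 2)) := by
    rw [one_div_one_div, Real.log_pow]
    push_cast
    linarith
  have hKK : KK Cw mm n (1 / X ^ 2) ≤ 5 * Cw * X ^ 4 := by
    unfold KK
    rw [div_le_iff₀ (by positivity)]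
    have h1 : Real.log n + Real.log (1 / (1 / X ^ 2)) + 1 ≤ 5 * X := by linarith
    calc Cw * mm * (Real.log n + Real.log (1 / (1 / X ^ 2)) + 1) ≤ Cw * X * (5 * X) := by
          gcongr
      _ = 5 * Cw * X ^ 4 * (1 / X ^ 2) := by
          field_simp
  have hKK0 : 0 ≤ KK Cw mm n (1 / X ^ 2) := by
    unfold KK
    positivity
  have t2 : 24 * ((1 / X ^ 10) ^ 2 * (mm * (KK Cw mm n (1 / X ^ 2)) ^ 2)) * mm ≤
      600 * Cw ^ 2 / X ^ 2 := by
    calc 24 * ((1 / X ^ 10) ^ 2 * (mm * (KK Cw mm n (1 / X ^ 2)) ^ 2)) * mm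
        ≤ 24 * ((1 / X ^ 10) ^ 2 * (X * (5 * Cw * X ^ 4) ^ 2)) * X := by gcongr
      _ = 600 * Cw ^ 2 / X ^ 10 := by
          field_simp
          ring
      _ ≤ 600 * Cw ^ 2 / X ^ 2 := by
          apply div_le_div_of_nonneg_left (by positivity) (by positivity)
          exact pow_le_pow_right₀ (by linarith) (by norm_num)
  calc _ ≤ 768 * N / X ^ 2 + 600 * Cw ^ 2 / X ^ 2 := add_le_add t1 t2
    _ = _ := by ring

/-- the deterministic statement -/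
theorem det_main {N Cw : ℝ} (hN1 : 1 ≤ N) (hCw : 1 ≤ Cw)
    (hweak : ∀ (ι : Type) [Fintype ι] [DecidableEq ι] (A : Matrix ι ι ℝ), A.IsSymm →
      ∀ (x₀ : ι) (Z : Finset ι) (s : ℝ), 0 < s → s ≤ 1 → Z.Nonempty →
      ∃ Bad : Set ℝ, MeasurableSet Bad ∧ volume Bad ≤ ENNReal.ofReal s ∧
        ∀ E : ℝ, |E| ≤ N → E ∉ Bad →
          (∀ f : ι → ℝ, (s / (4 * Fintype.card ι)) ^ 2 * ∑ i, f i ^ 2 ≤
            ∑ i, (A.mulVec f i - E * f i) ^ 2) ∧
          ∀ r : ι → ℝ, (∀ x, A.mulVec r x - E * r x = if x = x₀ then 1 else 0) →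
            ∀ z ∈ Z, |r z| ≤
              Cw * Z.card * (Real.log (Fintype.card ι) + Real.log (1 / s) + 1) / s)
    {w : ℕ → ℕ} (hw : Monotone w) {ω : V d → ℝ}
    {T : lp (fun _ : Horn d w => ℂ) 2 →L[ℂ] lp (fun _ : Horn d w => ℂ) 2}
    (hT : IsA (Horn d w) ω T) (hTN : 2 * ‖T‖ ≤ N)
    {k : ℕ → ℕ} (hk : ∀ i, i ≤ k i)
    (hwin : ∀ᶠ i in atTop, ∃ a ℓ m : ℕ, w a = m ∧ w (a + ℓ + 1) = m ∧ 1 ≤ ℓ ∧
      2 ^ (k i) ≤ a ∧ a + ℓ + 1 ≤ 2 ^ (k i + 1) ∧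
      (2 * w (2 ^ (k i + 1)) + 1) ^ d ≤ k i + 2 ∧
      ∃ BadB : Set ℝ, MeasurableSet BadB ∧
        volume BadB ≤ ENNReal.ofReal (1 / ((k i : ℝ) + 2) ^ 10) ∧
        ∀ E : ℝ, |E| ≤ N → E ∉ BadB → ∀ f : ℕ → Bx d m → ℝ,
          (∀ i < ℓ, ∀ y : Bx d m, ω (pt ((a + (i + 1) : ℕ) : ℤ) (y : Fin d → ℤ)) * f (i + 1) y +
            (tr d m).mulVec (f (i + 1)) y - f i y - f (i + 2) y = E * f (i + 1) y) →
          (∀ y, f (ℓ + 1) y = 0) →
            ∑ y, f ℓ y ^ 2 ≤ (1 / ((k i : ℝ) + 2) ^ 10) ^ 2 * ∑ y, f 0 y ^ 2)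
    (ψ : lp (fun _ : Horn d w => ℂ) 2) {μ : Measure ℝ} [IsFiniteMeasure μ]
    (hμ : ∀ z : ℂ, z.im ≠ 0 → (∫ x, ((x : ℂ) - z)⁻¹ ∂μ) = inner ℂ ψ (Rz T z ψ)) :
    μ ⟂ₘ (volume : Measure ℝ) := by
  classical
  have hN0 : 0 < N := by linarith
  obtain ⟨ε, hε⟩ : ∃ ε : ℕ → ℝ, ε = fun i => 1 / (16 ^ (k i) * ((k i : ℝ) + 2) ^ 8) := ⟨_, rfl⟩
  have hε0 : ∀ i, 0 < ε i := fun i => by rw [hε]; positivity
  have hεle : ∀ i, ε i ≤ 1 / ((i : ℝ) + 1) := by
    intro i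
    rw [hε]
    apply one_div_le_one_div_of_le (by positivity)
    have h1 : (1 : ℝ) ≤ 16 ^ (k i) := one_le_pow₀ (by norm_num)
    have h2 : (i : ℝ) ≤ k i := by exact_mod_cast hk i
    have h3 : (k i : ℝ) + 2 ≤ ((k i : ℝ) + 2) ^ 8 := le_self_pow₀ (by
      linarith [(Nat.cast_nonneg (k i) : (0 : ℝ) ≤ k i)]) (by norm_num)
    have h4 : (0 : ℝ) ≤ ((k i : ℝ) + 2) ^ 8 := by positivity
    nlinarith
  have hεN : ∀ i, ε i ≤ N := fun i => by
    refine (hεle i).trans (le_trans ?_ hN1)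
    rw [div_le_one (by positivity)]
    linarith [(Nat.cast_nonneg i : (0 : ℝ) ≤ i)]
  have hεt : Tendsto ε atTop (𝓝 0) :=
    squeeze_zero (fun i => (hε0 i).le) hεle tendsto_one_div_add_atTop_nhds_zero_nat
  refine sing_of_single hT.isSelfAdjoint hN0 hTN hε0 hεN hεt ?_ ψ hμ
  intro x₀
  -- the good sets of energies
  obtain ⟨i0, hi0⟩ := eventually_atTop.1 hwin
  obtain ⟨i1, hi1⟩ : ∃ i1 : ℕ, (x₀ : V d) 0 ≤ i1 := ⟨((x₀ : V d) 0).toNat, Int.self_le_toNat _⟩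
  obtain ⟨D, hD⟩ : ∃ D : ℝ, D = 768 * N + 600 * Cw ^ 2 := ⟨_, rfl⟩
  have hD0 : 0 ≤ D := by rw [hD]; positivity
  have hG : ∀ i, ∃ G : Set ℝ, MeasurableSet G ∧ G ⊆ Set.Ioc (-N) N ∧ (max i0 i1 ≤ i →
      volume (Set.Ioc (-N) N \ G) ≤ ENNReal.ofReal (2 / ((i : ℝ) + 2) ^ 2) ∧
      ∫⁻ E in G, gg T (lp.single 2 x₀ 1) (ε i) E ≤ ENNReal.ofReal (D / ((i : ℝ) + 2) ^ 2)) := by
    intro i
    by_cases hi : max i0 i1 ≤ i
    · obtain ⟨a, ℓ, m, ha, hb, hℓ, ha1, ha2, hP, BadB, hB1, hB2, hB3⟩ :=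
        hi0 i ((le_max_left _ _).trans hi)
      have hki : i ≤ k i := hk i
      have hx₀ : (x₀ : V d) 0 ≤ a := by
        refine hi1.trans ?_
        have h1 : i1 ≤ i := (le_max_right _ _).trans hi
        have h2 : k i ≤ 2 ^ (k i) := Nat.lt_two_pow_self.le
        exact_mod_cast h1.trans (hki.trans (h2.trans ha1))
      obtain ⟨G, hG1, hG2, hG3, hG4⟩ := scale hCw hweak hw hT hTN ha hb hℓ
        (s := 1 / ((k i : ℝ) + 2) ^ 2) (sb := 1 / ((k i : ℝ) + 2) ^ 10) (by positivity)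
        (by
          rw [div_le_one (by positivity)]
          exact one_le_pow₀ (by linarith [(Nat.cast_nonneg (k i) : (0 : ℝ) ≤ k i)]))
        hB1 hB2 hB3 x₀ hx₀
      have hX1 : (1 : ℝ) ≤ (k i : ℝ) + 2 := by
        linarith [(Nat.cast_nonneg (k i) : (0 : ℝ) ≤ k i)]
      have hXi : ((i : ℝ) + 2) ^ 2 ≤ ((k i : ℝ) + 2) ^ 2 := by
        apply pow_le_pow_left₀ (by positivity)
        have : (i : ℝ) ≤ k i := by exact_mod_cast hki
        linarith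
      refine ⟨G, hG1, hG2, fun _ => ⟨hG3.trans ?_, (hG4 (ε i) (hε0 i) (hεN i)).trans ?_⟩⟩
      · rw [← ENNReal.ofReal_add (by positivity) (by positivity)]
        apply ENNReal.ofReal_le_ofReal
        have h1 : 1 / ((k i : ℝ) + 2) ^ 10 ≤ 1 / ((k i : ℝ) + 2) ^ 2 := by
          apply one_div_le_one_div_of_le (by positivity)
          exact pow_le_pow_right₀ hX1 (by norm_num)
        have h2 : 1 / ((k i : ℝ) + 2) ^ 2 ≤ 1 / ((i : ℝ) + 2) ^ 2 :=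
          one_div_le_one_div_of_le (by positivity) hXi
        have h3 : 2 / ((i : ℝ) + 2) ^ 2 = 1 / ((i : ℝ) + 2) ^ 2 + 1 / ((i : ℝ) + 2) ^ 2 := by ring
        rw [h3]
        linarith
      · apply ENNReal.ofReal_le_ofReal
        have hwm : w (a + ℓ) ≤ w (2 ^ (k i + 1)) := hw (by omega)
        have hwa : m ≤ w (2 ^ (k i + 1)) := by rw [← ha]; exact hw (by omega)
        have hn1 : 1 ≤ (Fh d w (a + ℓ)).card := by
          apply Finset.card_pos.2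
          exact ⟨x₀, by
            rw [mem_Fh hw]
            refine ⟨x₀.2, hx₀.trans ?_⟩
            push_cast
            linarith [(Nat.cast_nonneg ℓ : (0 : ℤ) ≤ ℓ)]⟩
        have hn2 : (Fh d w (a + ℓ)).card ≤ 2 ^ (k i + 1) * (k i + 2) := by
          refine (card_Fh w (a + ℓ)).trans (Nat.mul_le_mul ha2 (le_trans ?_ hP))
          exact Nat.pow_le_pow_left (by omega) d
        have hm2 : (Bx d m).card ≤ k i + 2 := by
          rw [card_Bx]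
          exact le_trans (Nat.pow_le_pow_left (by omega) d) hP
        have hb := num_bound (k := k i) (N := N) (Cw := Cw) (n := (Fh d w (a + ℓ)).card)
          (mm := (Bx d m).card) hN1 hCw (by exact_mod_cast hn1) (by exact_mod_cast hn2)
          (by positivity) (by exact_mod_cast hm2)
        rw [hε]
        refine hb.trans ?_
        rw [← hD]
        exact div_le_div_of_nonneg_left hD0 (by positivity) hXi
    · exact ⟨∅, MeasurableSet.empty, Set.empty_subset _, fun h => absurd h hi⟩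
  choose G hG1 hG2 hG3 using hG
  have hsum : ∀ c : ℝ, Summable fun i : ℕ => c / ((i : ℝ) + 2) ^ 2 := by
    intro c
    have h1 : Summable fun i : ℕ => 1 / ((i : ℝ)) ^ 2 :=
      Real.summable_one_div_nat_pow.2 (by norm_num)
    have h2 := ((summable_nat_add_iff 2).2 h1).mul_left c
    refine h2.congr fun i => ?_
    push_cast
    ring
  exact ae_conv hT.isSelfAdjoint _ measurableSet_Ioc hε0 hG1 hG2 (hsum 2) (hsum D)
    (fun i => by positivity) (fun i => by positivity) (k₀ := max i0 i1)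
    (fun i hi => (hG3 i hi).1) (fun i hi => (hG3 i hi).2)

end Pool.Agent.Q234.AH
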