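import Pool.Agent.Q234.AH.Stm

/-!
# Anderson model on horns: PROB
-/

set_option autoImplicit false

noncomputable section

namespace Pool.Agent.Q234.AH

open MeasureTheory ProbabilityTheory Filter
open scoped ENNReal Topology

section
variable {X : Type} [Countable X] [DecidableEq X] {ν : Measure ℝ} [IsProbabilityMeasure ν]

lemma inter_compl_le {n c : ℕ} {π : ℝ} (B : Fin n → Finset X) (I : Fin n → X → Set ℝ)
    (hπ0 : 0 ≤ π) (hπ1 : π ≤ 1) (hI : ∀ j x, MeasurableSet (I j x))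
    (hπ : ∀ j x, ENNReal.ofReal π ≤ ν (I j x)) (hc : ∀ j, (B j).card ≤ c)
    (hB : ∀ i j, i ≠ j → Disjoint (B i) (B j)) (s : Finset (Fin n)) :
    (Measure.infinitePi fun _ : X => ν) {ω | ∀ j ∈ s, ¬ ∀ x ∈ B j, ω x ∈ I j x} ≤
      ENNReal.ofReal (1 - π ^ c) ^ s.card := by
  classical
  obtain ⟨P, hP⟩ : ∃ P, P = (Measure.infinitePi fun _ : X => ν) := ⟨_, rfl⟩
  have : IsProbabilityMeasure P := by rw [hP]; infer_instance
  have hind : iIndepFun (fun (x : X) (ω : X → ℝ) => ω x) P := by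
    rw [hP]
    exact iIndepFun_infinitePi (X := fun _ t => t) fun _ => measurable_id
  have hA : ∀ j, P {ω | ∀ x ∈ B j, ω x ∈ I j x} ≥ ENNReal.ofReal (π ^ c) := by
    intro j
    have h1 : {ω : X → ℝ | ∀ x ∈ B j, ω x ∈ I j x} = Set.pi (B j) (I j) := by
      ext ω; simp [Set.mem_pi]
    rw [h1, hP, Measure.infinitePi_pi _ (fun x _ => hI j x)]
    calc ENNReal.ofReal (π ^ c) ≤ ENNReal.ofReal (π ^ (B j).card) :=
          ENNReal.ofReal_le_ofReal (pow_le_pow_of_le_one hπ0 hπ1 (hc j))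
      _ = ∏ _x ∈ B j, ENNReal.ofReal π := by
          rw [Finset.prod_const, ENNReal.ofReal_pow hπ0]
      _ ≤ _ := Finset.prod_le_prod' fun x _ => hπ j x
  have hmeas : ∀ j, MeasurableSet {ω : X → ℝ | ∀ x ∈ B j, ω x ∈ I j x} := by
    intro j
    have : {ω : X → ℝ | ∀ x ∈ B j, ω x ∈ I j x} = ⋂ x ∈ B j, (fun ω : X → ℝ => ω x) ⁻¹' I j x := by
      ext ω; simp
    rw [this]
    exact Finset.measurableSet_biInter _ fun x _ => measurable_pi_apply x (hI j x)
  have hAc : ∀ j, P {ω | ¬ ∀ x ∈ B j, ω x ∈ I j x} ≤ ENNReal.ofReal (1 - π ^ c) := by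
    intro j
    have h1 : {ω : X → ℝ | ¬ ∀ x ∈ B j, ω x ∈ I j x} = {ω | ∀ x ∈ B j, ω x ∈ I j x}ᶜ := rfl
    rw [h1, prob_compl_eq_one_sub (hmeas j), ENNReal.ofReal_sub _ (by positivity),
      ENNReal.ofReal_one]
    exact tsub_le_tsub_left (hA j) 1
  rw [← hP]
  induction s using Finset.induction_on with
  | empty => simp
  | insert a s ha ih =>
    rw [Finset.card_insert_of_notMem ha, pow_succ']
    obtain ⟨U, hU⟩ : ∃ U : Finset X, U = s.biUnion B := ⟨_, rfl⟩
    have hdisj : Disjoint (B a) U := by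
      rw [hU, Finset.disjoint_biUnion_right]
      intro j hj
      exact hB a j fun h => ha (h ▸ hj)
    have hi := hind.indepFun_finset (B a) U hdisj (fun x => measurable_pi_apply x)
    have hBU : ∀ j ∈ s, ∀ x ∈ B j, x ∈ U := fun j hj x hx => by
      rw [hU, Finset.mem_biUnion]; exact ⟨j, hj, hx⟩
    have e1 : {ω : X → ℝ | ∀ j ∈ insert a s, ¬ ∀ x ∈ B j, ω x ∈ I j x} =
        (fun ω (x : B a) => ω x) ⁻¹' {g | ¬ ∀ x : B a, g x ∈ I a x} ∩
        (fun ω (x : U) => ω x) ⁻¹' {g | ∀ j (_ : j ∈ s), ¬ ∀ x (hx : x ∈ B j),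
          g ⟨x, hBU j ‹_› x hx⟩ ∈ I j x} := by
      ext ω
      simp only [Set.mem_inter_iff, Set.mem_preimage, Set.mem_ofPred_eq, Finset.forall_mem_insert,
        Subtype.forall]
    have e2 : (fun ω (x : B a) => ω x) ⁻¹' {g | ¬ ∀ x : B a, g x ∈ I a x} =
        {ω : X → ℝ | ¬ ∀ x ∈ B a, ω x ∈ I a x} := by
      ext ω
      simp only [Set.mem_preimage, Set.mem_ofPred_eq, Subtype.forall]
    have e3 : (fun ω (x : U) => ω x) ⁻¹' {g | ∀ j (_ : j ∈ s), ¬ ∀ x (hx : x ∈ B j),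
          g ⟨x, hBU j ‹_› x hx⟩ ∈ I j x} = {ω : X → ℝ | ∀ j ∈ s, ¬ ∀ x ∈ B j, ω x ∈ I j x} := by
      ext ω
      simp only [Set.mem_preimage, Set.mem_ofPred_eq]
    have m1 : MeasurableSet {g : B a → ℝ | ¬ ∀ x : B a, g x ∈ I a x} := by
      have : {g : B a → ℝ | ¬ ∀ x : B a, g x ∈ I a x} =
          (⋂ x : B a, (fun g : B a → ℝ => g x) ⁻¹' I a x)ᶜ := by
        ext g; simp
      rw [this]
      exact (MeasurableSet.iInter fun x : B a => (measurable_pi_apply x) (hI a x)).compl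
    have m2 : MeasurableSet {g : U → ℝ | ∀ j (_ : j ∈ s), ¬ ∀ x (hx : x ∈ B j),
          g ⟨x, hBU j ‹_› x hx⟩ ∈ I j x} := by
      have : {g : U → ℝ | ∀ j (_ : j ∈ s), ¬ ∀ x (hx : x ∈ B j),
          g ⟨x, hBU j ‹_› x hx⟩ ∈ I j x} = ⋂ j, ⋂ (h : j ∈ s), (⋂ x, ⋂ (hx : x ∈ B j),
            (fun g : U → ℝ => g ⟨x, hBU j h x hx⟩) ⁻¹' I j x)ᶜ := by
        ext g
        simp only [Set.mem_ofPred_eq, Set.mem_iInter, Set.mem_compl_iff, Set.mem_preimage]
      rw [this]
      exact MeasurableSet.iInter fun j => MeasurableSet.iInter fun h =>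
        (MeasurableSet.iInter fun x => MeasurableSet.iInter fun hx =>
          (measurable_pi_apply (⟨x, hBU j h x hx⟩ : U)) (hI j x)).compl
    rw [e1, hi.measure_inter_preimage_eq_mul _ _ m1 m2, e2, e3]
    exact mul_le_mul' (hAc a) ih

end

theorem prob : S_prob := by
  intro X _ _ ν _ n c π B I hπ0 hI hπ hc hB hsum
  obtain ⟨P, hP⟩ : ∃ P, P = (Measure.infinitePi fun _ : X => ν) := ⟨_, rfl⟩
  rw [← hP]
  have : IsProbabilityMeasure P := by rw [hP]; infer_instance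
  -- bound for the failure probability
  have hfail : ∀ k, P {ω | ∀ j : Fin (n k), ¬ ∀ x ∈ B k j, ω x ∈ I k j x} ≤
      ENNReal.ofReal (Real.exp (-((n k : ℝ) * π k ^ c k))) := by
    intro k
    by_cases hn : n k = 0
    · have e : ((n k : ℕ) : ℝ) = 0 := by rw [hn]; simp
      rw [e]
      simp only [zero_mul, neg_zero, Real.exp_zero, ENNReal.ofReal_one]
      exact prob_le_one
    · by_cases hX : Nonempty X
      · have hπ1 : π k ≤ 1 := by
          obtain ⟨x⟩ := hX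
          have h1 := (hπ k ⟨0, Nat.pos_of_ne_zero hn⟩ x).trans prob_le_one
          rwa [ENNReal.ofReal_le_one] at h1
        have h1 := inter_compl_le (ν := ν) (B k) (I k) (hπ0 k) hπ1 (hI k) (hπ k) (hc k) (hB k)
          Finset.univ
        rw [← hP] at h1
        simp only [Finset.mem_univ, true_imp_iff, Finset.card_univ, Fintype.card_fin] at h1
        refine h1.trans ?_
        have h2 : 0 ≤ 1 - π k ^ c k := sub_nonneg.2 (pow_le_one₀ (hπ0 k) hπ1)
        rw [← ENNReal.ofReal_pow h2]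
        apply ENNReal.ofReal_le_ofReal
        have h3 : 1 - π k ^ c k ≤ Real.exp (-(π k ^ c k)) := by
          have := Real.add_one_le_exp (-(π k ^ c k))
          linarith
        calc (1 - π k ^ c k) ^ n k ≤ Real.exp (-(π k ^ c k)) ^ n k := pow_le_pow_left₀ h2 h3 _
          _ = _ := by
            rw [← Real.exp_nat_mul]
            congr 1
            ring
      · have : {ω : X → ℝ | ∀ j : Fin (n k), ¬ ∀ x ∈ B k j, ω x ∈ I k j x} = ∅ := by
          ext ω
          simp only [Set.mem_ofPred_eq, Set.mem_empty_iff_false, iff_false]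
          intro h
          exact h ⟨0, Nat.pos_of_ne_zero hn⟩ fun x => absurd ⟨x⟩ hX
        rw [this]
        simp
  have hfin : ∑' k, P {ω | ∀ j : Fin (n k), ¬ ∀ x ∈ B k j, ω x ∈ I k j x} ≠ ∞ := by
    refine (lt_of_le_of_lt (ENNReal.tsum_le_tsum hfail) ?_).ne
    rw [← ENNReal.ofReal_tsum_of_nonneg (fun k => (Real.exp_pos _).le) hsum]
    exact ENNReal.ofReal_lt_top
  filter_upwards [ae_eventually_notMem hfin] with ω hω
  filter_upwards [hω] with k hk
  by_contra h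
  exact hk fun j hj => h ⟨j, hj⟩

end Pool.Agent.Q234.AH
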