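import Pool.Agent.Q234.AH.Law
import Pool.Agent.Q234.AH.Prob
import Pool.Agent.H140.AH.AHWeak

/-!
# Anderson model on horns: final statements
-/

set_option autoImplicit false

noncomputable section

namespace Pool.Agent.Q234.AH

open MeasureTheory Filter
open scoped ENNReal Topology

/-- laws with two atoms -/
theorem fin_atoms (hbar : S_bar) (d : ℕ) (hd : 1 ≤ d) (ν : Measure ℝ) [IsProbabilityMeasure ν]
    (K : ℝ) (hK : ν (Set.Icc (-K) K)ᶜ = 0) (p q : ℝ) (hpq : p ≠ q) (hp : ν {p} ≠ 0)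
    (hq : ν {q} ≠ 0) :
    ∃ c : ℝ, 0 < c ∧ ∀ w : ℕ → ℕ, Monotone w →
      (∃ᶠ n : ℕ in atTop, (2 * (w n : ℝ) + 1) ^ d * Real.log (Real.log n) ≤ c * Real.log n) →
      ∀ᵐ ω ∂(Measure.infinitePi fun _ : V d => ν),
        ∀ T : lp (fun _ : Horn d w => ℂ) 2 →L[ℂ] lp (fun _ : Horn d w => ℂ) 2,
          IsA (Horn d w) ω T → Sing T := by
  obtain ⟨κ₁, hκ₁, h1⟩ := near_of_atom hp
  obtain ⟨κ₂, hκ₂, h2⟩ := near_of_atom hq
  obtain ⟨c, hc, h⟩ := main (d := d) Pool.Agent.H140.AH.weak hbar prob hd p q K (min κ₁ κ₂) 0 hpq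
    (lt_min hκ₁ hκ₂) le_rfl
  refine ⟨c, hc, fun w hw hfr => ?_⟩
  refine h ν hK (h1.mono (min_le_left _ _)) (h2.mono (min_le_right _ _)) w hw (hfr.mono ?_)
  intro n hn
  push_cast
  simpa using hn

/-- all laws -/
theorem fin_all (hbar : S_bar) (d : ℕ) (hd : 1 ≤ d) (ν : Measure ℝ) [IsProbabilityMeasure ν]
    (K : ℝ) (hK : ν (Set.Icc (-K) K)ᶜ = 0) (hν : ∀ a, ν {a} ≠ 1) :
    ∃ c : ℝ, 0 < c ∧ ∀ w : ℕ → ℕ, Monotone w →
      (∃ᶠ n : ℕ in atTop, (2 * (w n : ℝ) + 1) ^ d * Real.log (Real.log n) ^ 2 ≤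
        c * Real.log n) →
      ∀ᵐ ω ∂(Measure.infinitePi fun _ : V d => ν),
        ∀ T : lp (fun _ : Horn d w => ℂ) 2 →L[ℂ] lp (fun _ : Horn d w => ℂ) 2,
          IsA (Horn d w) ω T → Sing T := by
  obtain ⟨p, q, κ, hpq, hκ, h1, h2⟩ := exists_near hν
  obtain ⟨c, hc, h⟩ := main (d := d) Pool.Agent.H140.AH.weak hbar prob hd p q K κ 1 hpq hκ
    zero_le_one
  refine ⟨c / 2, by positivity, fun w hw hfr => ?_⟩
  refine h ν hK h1 h2 w hw ((hfr.and_eventually (eventually_ge_atTop ⌈Real.exp (Real.exp 1)⌉₊)).mono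
    ?_)
  rintro n ⟨hn, hn2⟩
  have hn3 : Real.exp (Real.exp 1) ≤ n := Nat.ceil_le.1 hn2
  have h3 : Real.exp 1 ≤ Real.log n := (Real.le_log_iff_exp_le ((Real.exp_pos _).trans_le hn3)).2 hn3
  have h4 : 1 ≤ Real.log (Real.log n) :=
    (Real.le_log_iff_exp_le ((Real.exp_pos _).trans_le h3)).2 h3
  push_cast
  obtain ⟨P, hP⟩ : ∃ P, P = (2 * (w n : ℝ) + 1) ^ d := ⟨_, rfl⟩
  obtain ⟨y, hy⟩ : ∃ y, y = Real.log (Real.log n) := ⟨_, rfl⟩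
  rw [← hP, ← hy] at hn ⊢
  rw [← hy] at h4
  have hP0 : 0 ≤ P := by rw [hP]; positivity
  have : P * y * (1 + 1 * y) ≤ 2 * (P * y ^ 2) := by
    have h5 : 0 ≤ P * y := mul_nonneg hP0 (by linarith)
    nlinarith
  linarith

end Pool.Agent.Q234.AH
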