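import Pool.Agent.Q234.AH.Det

/-!
# Anderson model on subsets of the lattice: the operator
-/

set_option autoImplicit false

noncomputable section

namespace Pool.Agent.Q234.AH

open Complex MeasureTheory Filter
open scoped ENNReal Topology InnerProductSpace
open Pool.Agent.H12R2.And (Rz gg)

/-- the lattice `ℤ^(d+1)` -/
abbrev V (d : ℕ) := Fin (d + 1) → ℤ

/-- unit vectors -/
abbrev ev {d : ℕ} (i : Fin (d + 1)) : V d := Pi.single i (1 : ℤ)

variable {d : ℕ}

/-- extension by zero of a function on `S` -/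
def ext {S : Set (V d)} (u : S → ℂ) (x : V d) : ℂ :=
  open Classical in if h : x ∈ S then u ⟨x, h⟩ else 0

/-- `-(discrete Laplacian) + ω` -/
def hopC (ω : V d → ℝ) (g : V d → ℂ) (x : V d) : ℂ :=
  -(∑ i, ((g (x + ev i) - g x) + (g (x - ev i) - g x))) + (ω x : ℂ) * g x

/-- the same for real functions -/
def hopR (ω : V d → ℝ) (g : V d → ℝ) (x : V d) : ℝ :=
  -(∑ i, ((g (x + ev i) - g x) + (g (x - ev i) - g x))) + ω x * g x

/-- `T` is the operator `-(discrete Laplacian) + ω` on `ℓ²(S)` with the Dirichlet condition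
outside `S` -/
def IsA (S : Set (V d)) (ω : V d → ℝ)
    (T : lp (fun _ : S => ℂ) 2 →L[ℂ] lp (fun _ : S => ℂ) 2) : Prop :=
  ∀ (u : lp (fun _ : S => ℂ) 2) (x : S), (T u) x = hopC ω (ext u) x

lemma hopC_ofReal (ω : V d → ℝ) (g : V d → ℝ) (x : V d) :
    hopC ω (fun y => (g y : ℂ)) x = (hopR ω g x : ℂ) := by
  unfold hopC hopR
  push_cast
  rfl

lemma ext_mem {S : Set (V d)} (u : S → ℂ) {x : V d} (h : x ∈ S) : ext u x = u ⟨x, h⟩ := by
  unfold ext
  rw [dif_pos h]

lemma ext_notMem {S : Set (V d)} (u : S → ℂ) {x : V d} (h : x ∉ S) : ext u x = 0 := by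
  unfold ext
  rw [dif_neg h]

/-- kernel -/
def ker (ω : V d → ℝ) (x y : V d) : ℝ := hopR ω (Pi.single y (1 : ℝ)) x

lemma ker_symm (ω : V d → ℝ) (x y : V d) : ker ω x y = ker ω y x := by
  unfold ker hopR
  have h1 : ∀ i : Fin (d + 1), (Pi.single y (1 : ℝ) : V d → ℝ) (x + ev i) =
      (Pi.single x (1 : ℝ) : V d → ℝ) (y - ev i) := by
    intro i
    rw [Pi.single_apply, Pi.single_apply]
    congr 1
    exact propext ⟨fun h => by rw [← h]; simp, fun h => by rw [← h]; simp⟩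
  have h2 : ∀ i : Fin (d + 1), (Pi.single y (1 : ℝ) : V d → ℝ) (x - ev i) =
      (Pi.single x (1 : ℝ) : V d → ℝ) (y + ev i) := by
    intro i
    rw [Pi.single_apply, Pi.single_apply]
    congr 1
    exact propext ⟨fun h => by rw [← h]; simp, fun h => by rw [← h]; simp⟩
  have h3 : (Pi.single y (1 : ℝ) : V d → ℝ) x = (Pi.single x (1 : ℝ) : V d → ℝ) y := by
    rw [Pi.single_apply, Pi.single_apply]
    congr 1
    exact propext ⟨fun h => h.symm, fun h => h.symm⟩
  simp only [h1, h2, h3]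
  have h4 : ω x * (Pi.single x (1 : ℝ) : V d → ℝ) y = ω y * (Pi.single x (1 : ℝ) : V d → ℝ) y := by
    by_cases h : y = x
    · rw [h]
    · rw [Pi.single_eq_of_ne h]; ring
  rw [h4]
  congr 2
  refine Finset.sum_congr rfl fun i _ => ?_
  ring

/-- `hopR` at a point as a linear map -/
def hopL (ω : V d → ℝ) (x : V d) : (V d → ℝ) →ₗ[ℝ] ℝ where
  toFun g := hopR ω g x
  map_add' g h := by
    have : ∑ i, (((g + h) (x + ev i) - (g + h) x) + ((g + h) (x - ev i) - (g + h) x)) =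
        ∑ i, ((g (x + ev i) - g x) + (g (x - ev i) - g x)) +
        ∑ i, ((h (x + ev i) - h x) + (h (x - ev i) - h x)) := by
      rw [← Finset.sum_add_distrib]
      refine Finset.sum_congr rfl fun i _ => ?_
      simp only [Pi.add_apply]
      ring
    unfold hopR
    rw [this]
    simp only [Pi.add_apply]
    ring
  map_smul' c g := by
    have : ∑ i, (((c • g) (x + ev i) - (c • g) x) + ((c • g) (x - ev i) - (c • g) x)) =
        c * ∑ i, ((g (x + ev i) - g x) + (g (x - ev i) - g x)) := by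
      rw [Finset.mul_sum]
      refine Finset.sum_congr rfl fun i _ => ?_
      simp only [Pi.smul_apply, smul_eq_mul]
      ring
    unfold hopR
    rw [this]
    simp only [Pi.smul_apply, smul_eq_mul, RingHom.id_apply]
    ring

/-- expansion in the kernel of a finitely supported function -/
lemma hopR_eq_sum (ω : V d → ℝ) (F : Finset (V d)) (g : V d → ℝ) (hg : ∀ x ∉ F, g x = 0)
    (x : V d) : hopR ω g x = ∑ y ∈ F, ker ω x y * g y := by
  have h : g = ∑ y ∈ F, g y • (Pi.single y (1 : ℝ) : V d → ℝ) := by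
    funext z
    rw [Finset.sum_apply]
    by_cases hz : z ∈ F
    · rw [Finset.sum_eq_single z]
      · simp
      · intro y _ hy
        rw [Pi.smul_apply, Pi.single_eq_of_ne hy.symm, smul_zero]
      · intro h; exact absurd hz h
    · rw [hg z hz, Finset.sum_eq_zero]
      intro y hy
      rw [Pi.smul_apply, Pi.single_eq_of_ne, smul_zero]
      rintro rfl; exact hz hy
  have h2 : hopR ω g x = hopL ω x g := rfl
  rw [h2]
  conv_lhs => rw [h]
  rw [map_sum]
  refine Finset.sum_congr rfl fun y _ => ?_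
  rw [map_smul, smul_eq_mul, mul_comm]
  rfl

/-- far from the support -/
lemma hopR_eq_zero (ω : V d → ℝ) (g : V d → ℝ) (x : V d) (h0 : g x = 0)
    (h1 : ∀ i, g (x + ev i) = 0) (h2 : ∀ i, g (x - ev i) = 0) : hopR ω g x = 0 := by
  unfold hopR
  simp [h0, h1, h2]

section op
variable {S : Set (V d)} {ω : V d → ℝ} {T : lp (fun _ : S => ℂ) 2 →L[ℂ] lp (fun _ : S => ℂ) 2}

/-- the vector of `ℓ²(S)` with the values of `r` on the finite set `F` -/
def toL (S : Set (V d)) (F : Finset (V d)) (r : V d → ℝ) : lp (fun _ : S => ℂ) 2 :=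
  open Classical in
  ∑ x ∈ F, if h : x ∈ S then ((r x : ℝ) : ℂ) • lp.single 2 (⟨x, h⟩ : S) (1 : ℂ) else 0

lemma toL_apply (F : Finset (V d)) (r : V d → ℝ) (hr : ∀ x ∉ F, r x = 0) (z : S) :
    toL S F r z = (r z : ℂ) := by
  classical
  unfold toL
  rw [lp.coeFn_sum, Finset.sum_apply]
  by_cases hz : (z : V d) ∈ F
  · rw [Finset.sum_eq_single (z : V d)]
    · rw [dif_pos z.2, lp.coeFn_smul, Pi.smul_apply, lp.single_apply]
      simp
    · intro y _ hy
      split_ifs with h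
      · rw [lp.coeFn_smul, Pi.smul_apply, lp.single_apply, Pi.single_eq_of_ne, smul_zero]
        rintro rfl
        exact hy rfl
      · rfl
    · intro h; exact absurd hz h
  · rw [hr _ hz, Finset.sum_eq_zero]
    · simp
    · intro y hy
      split_ifs with h
      · rw [lp.coeFn_smul, Pi.smul_apply, lp.single_apply, Pi.single_eq_of_ne, smul_zero]
        rintro rfl
        exact hz hy
      · rfl

lemma ext_toL (F : Finset (V d)) (hF : ∀ x ∈ F, x ∈ S) (r : V d → ℝ) (hr : ∀ x ∉ F, r x = 0) :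
    ext (toL S F r) = fun x => (r x : ℂ) := by
  funext x
  by_cases h : x ∈ S
  · rw [ext_mem _ h, toL_apply F r hr]
  · rw [ext_notMem _ h, hr x fun hx => h (hF x hx)]
    simp

lemma IsA.toL (hT : IsA S ω T) (F : Finset (V d)) (hF : ∀ x ∈ F, x ∈ S) (r : V d → ℝ)
    (hr : ∀ x ∉ F, r x = 0) (z : S) : T (toL S F r) z = (hopR ω r z : ℂ) := by
  rw [hT, ext_toL F hF r hr, hopC_ofReal]

lemma single_eq_toL (y : S) : (lp.single 2 y (1 : ℂ) : lp (fun _ : S => ℂ) 2) =
    toL S {(y : V d)} (Pi.single (y : V d) (1 : ℝ)) := by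
  ext z
  rw [toL_apply]
  · rw [lp.single_apply]
    by_cases h : z = y
    · rw [h]; simp
    · rw [Pi.single_eq_of_ne h, Pi.single_eq_of_ne]
      · simp
      · intro h2; exact h (Subtype.ext h2)
  · intro x hx
    rw [Finset.mem_singleton] at hx
    exact Pi.single_eq_of_ne hx _

lemma IsA.single (hT : IsA S ω T) (x y : S) : T (lp.single 2 y (1 : ℂ)) x = (ker ω x y : ℂ) := by
  rw [single_eq_toL, hT.toL]
  · rfl
  · intro x hx
    rw [Finset.mem_singleton] at hx
    rw [hx]; exact y.2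
  · intro x hx
    rw [Finset.mem_singleton] at hx
    exact Pi.single_eq_of_ne hx _

lemma IsA.isSelfAdjoint (hT : IsA S ω T) : IsSelfAdjoint T := by
  rw [ContinuousLinearMap.isSelfAdjoint_iff']
  apply lp.ext_continuousLinearMap (by norm_num)
  intro i
  ext
  rename_i j
  simp only [ContinuousLinearMap.comp_apply, lp.singleContinuousLinearMap_apply]
  have h1 : ∀ w : lp (fun _ : S => ℂ) 2, w j = inner ℂ (lp.single 2 j (1 : ℂ)) w := by
    intro w
    rw [lp.inner_single_left]; simp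
  rw [h1, ContinuousLinearMap.adjoint_inner_right, lp.inner_single_right, hT.single, hT.single,
    ker_symm ω j i]
  simp

lemma sum_ext_le (u : lp (fun _ : S => ℂ) 2) (B : Finset (V d)) :
    ∑ y ∈ B, ‖ext u y‖ ^ 2 ≤ ‖u‖ ^ 2 := by
  classical
  have h1 : ∑ y ∈ B, ‖ext u y‖ ^ 2 = ∑ y ∈ B.subtype (· ∈ S), ‖u y‖ ^ 2 := by
    have h3 := Finset.sum_subtype_eq_sum_filter (fun z : V d => ‖ext u z‖ ^ 2) (p := (· ∈ S))
      (s := B)
    refine Eq.trans ?_ (h3.symm.trans ?_)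
    · rw [Finset.sum_filter]
      refine Finset.sum_congr rfl fun y _ => ?_
      split_ifs with h
      · rfl
      · rw [ext_notMem _ h]; simp
    · refine Finset.sum_congr rfl fun y _ => ?_
      simp only [ext_mem _ y.2]
  rw [h1]
  have h := lp.sum_rpow_le_norm_rpow (p := 2) (by norm_num) u (B.subtype (· ∈ S))
  simpa using h

omit T in
lemma weighted_cs {n : ℕ} (hn : 0 < n) (a b : Fin n → ℝ) {c g : ℝ} (hc : 0 ≤ c) :
    (∑ i, (a i + b i) + c * g) ^ 2 ≤ (2 * n + c) * (∑ i, (a i ^ 2 + b i ^ 2) + c * g ^ 2) := by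
  have hn' : (0 : ℝ) < n := by exact_mod_cast hn
  obtain ⟨P, hP⟩ : ∃ P, P = ∑ i, (a i + b i) := ⟨_, rfl⟩
  obtain ⟨Q, hQ⟩ : ∃ Q, Q = ∑ i, (a i ^ 2 + b i ^ 2) := ⟨_, rfl⟩
  have h1 : P ^ 2 ≤ 2 * n * Q := by
    have h2 : P ^ 2 ≤ n * ∑ i, (a i + b i) ^ 2 := by
      rw [hP]
      have := sq_sum_le_card_mul_sum_sq (s := (Finset.univ : Finset (Fin n)))
        (f := fun i => a i + b i)
      simpa using this
    have h3 : ∑ i, (a i + b i) ^ 2 ≤ 2 * Q := by
      rw [hQ, Finset.mul_sum]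
      refine Finset.sum_le_sum fun i _ => ?_
      nlinarith [sq_nonneg (a i - b i)]
    nlinarith
  rw [← hP, ← hQ]
  have h4 : 0 ≤ c * (P - 2 * n * g) ^ 2 := by positivity
  have h5 : 0 ≤ 2 * n * ((2 * n + c) * (Q + c * g ^ 2) - (P + c * g) ^ 2) := by
    nlinarith [mul_le_mul_of_nonneg_left h1 (by positivity : 0 ≤ 2 * (n : ℝ) + c)]
  have h6 := nonneg_of_mul_nonneg_right h5 (by positivity : (0 : ℝ) < 2 * n)
  linarith

/-- norm of the operator -/
theorem IsA.norm_le (hT : IsA S ω T) {K : ℝ} (hK : ∀ x, |ω x| ≤ K) :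
    ‖T‖ ≤ 4 * (d + 1) + K := by
  have hK0 : 0 ≤ K := (abs_nonneg _).trans (hK 0)
  have hC : (0 : ℝ) ≤ 4 * (d + 1) + K := by positivity
  refine ContinuousLinearMap.opNorm_le_bound _ hC fun u => ?_
  refine lp.norm_le_of_forall_sum_le (by norm_num) (by positivity) fun s => ?_
  obtain ⟨g, hg⟩ : ∃ g : V d → ℂ, g = ext u := ⟨_, rfl⟩
  have hshift : ∀ e : V d, ∑ x ∈ s, ‖g ((x : V d) + e)‖ ^ 2 ≤ ‖u‖ ^ 2 := by
    intro e
    have h := sum_ext_le u (s.map ⟨fun x : S => (x : V d) + e, fun x y h => by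
      have := add_right_cancel h
      exact Subtype.ext this⟩)
    rw [Finset.sum_map] at h
    rw [hg]
    exact h
  have h0 : ∑ x ∈ s, ‖g (x : V d)‖ ^ 2 ≤ ‖u‖ ^ 2 := by simpa using hshift 0
  obtain ⟨c, hc⟩ : ∃ c : ℝ, c = 2 * (d + 1) + K := ⟨_, rfl⟩
  have hc0 : 0 ≤ c := by rw [hc]; positivity
  have hpt : ∀ x : S, ‖(T u) x‖ ^ 2 ≤ (2 * ((d + 1 : ℕ) : ℝ) + c) *
      (∑ i, (‖g ((x : V d) + ev i)‖ ^ 2 + ‖g ((x : V d) + -ev i)‖ ^ 2) + c * ‖g x‖ ^ 2) := by
    intro x
    refine le_trans ?_ (weighted_cs (Nat.succ_pos d) (fun i => ‖g ((x : V d) + ev i)‖)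
      (fun i => ‖g ((x : V d) + -ev i)‖) hc0)
    refine pow_le_pow_left₀ (norm_nonneg _) ?_ 2
    have e1 : (T u) x = -(∑ i, (g ((x : V d) + ev i) + g ((x : V d) + -ev i))) +
        ((2 * (d + 1) : ℝ) + ω x : ℂ) * g x := by
      rw [hT u x, ← hg]
      unfold hopC
      have : ∑ i, ((g ((x : V d) + ev i) - g x) + (g ((x : V d) - ev i) - g x)) =
          ∑ i, (g ((x : V d) + ev i) + g ((x : V d) + -ev i)) - (2 * (d + 1) : ℝ) * g x := by
        have h2 : ((2 * (d + 1) : ℝ) : ℂ) * g x = ∑ _i : Fin (d + 1), 2 * g (x : V d) := by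
          rw [Finset.sum_const, Finset.card_univ, Fintype.card_fin, nsmul_eq_mul]
          push_cast
          ring
        rw [h2, ← Finset.sum_sub_distrib]
        refine Finset.sum_congr rfl fun i _ => ?_
        rw [← sub_eq_add_neg (x : V d)]
        ring
      rw [this]
      ring
    rw [e1]
    refine (norm_add_le _ _).trans (add_le_add ?_ ?_)
    · rw [norm_neg]
      exact (norm_sum_le _ _).trans (Finset.sum_le_sum fun i _ => norm_add_le _ _)
    · rw [norm_mul]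
      refine mul_le_mul_of_nonneg_right ?_ (norm_nonneg _)
      refine (norm_add_le _ _).trans ?_
      rw [Complex.norm_real, Complex.norm_real, Real.norm_eq_abs, Real.norm_eq_abs,
        abs_of_nonneg (by positivity : (0 : ℝ) ≤ 2 * (d + 1)), hc]
      linarith [hK x]
  calc ∑ x ∈ s, ‖(T u) x‖ ^ (2 : ℝ≥0∞).toReal = ∑ x ∈ s, ‖(T u) x‖ ^ 2 := by simp
    _ ≤ ∑ x ∈ s, (2 * ((d + 1 : ℕ) : ℝ) + c) *
      (∑ i, (‖g ((x : V d) + ev i)‖ ^ 2 + ‖g ((x : V d) + -ev i)‖ ^ 2) + c * ‖g x‖ ^ 2) :=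
        Finset.sum_le_sum fun x _ => hpt x
    _ = (2 * ((d + 1 : ℕ) : ℝ) + c) * (∑ i, (∑ x ∈ s, ‖g ((x : V d) + ev i)‖ ^ 2 +
        ∑ x ∈ s, ‖g ((x : V d) + -ev i)‖ ^ 2) + c * ∑ x ∈ s, ‖g (x : V d)‖ ^ 2) := by
      rw [← Finset.mul_sum, Finset.sum_add_distrib, Finset.sum_comm, ← Finset.mul_sum]
      simp only [Finset.sum_add_distrib]
    _ ≤ (2 * ((d + 1 : ℕ) : ℝ) + c) * (∑ _i : Fin (d + 1), (‖u‖ ^ 2 + ‖u‖ ^ 2) +
        c * ‖u‖ ^ 2) := by
      refine mul_le_mul_of_nonneg_left (add_le_add (Finset.sum_le_sum fun i _ =>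
        add_le_add (hshift _) (hshift _)) (mul_le_mul_of_nonneg_left h0 hc0)) (by positivity)
    _ = ((4 * (d + 1) + K) * ‖u‖) ^ (2 : ℝ≥0∞).toReal := by
      rw [Finset.sum_const, Finset.card_univ, Fintype.card_fin, nsmul_eq_mul, hc]
      push_cast
      simp only [ENNReal.toReal_ofNat, Real.rpow_ofNat]
      ring

end op

end Pool.Agent.Q234.AH
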