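import Pool.Agent.Q234.AH.Main

/-!
# Anderson model on horns: the laws
-/

set_option autoImplicit false

noncomputable section

namespace Pool.Agent.Q234.AH

open MeasureTheory Filter
open scoped ENNReal Topology

lemma Near.mono {ν : Measure ℝ} {κ κ' θ p : ℝ} (h : Near ν κ θ p) (hκ : κ' ≤ κ) :
    Near ν κ' θ p := by
  intro ε h0 h1
  refine le_trans (ENNReal.ofReal_le_ofReal ?_) (h ε h0 h1)
  exact mul_le_mul_of_nonneg_right hκ (Real.rpow_nonneg h0.le _)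

lemma near_of_atom {ν : Measure ℝ} [IsProbabilityMeasure ν] {p : ℝ} (h : ν {p} ≠ 0) :
    ∃ κ : ℝ, 0 < κ ∧ Near ν κ 0 p := by
  refine ⟨(ν {p}).toReal, ENNReal.toReal_pos h (measure_ne_top _ _), ?_⟩
  intro ε h0 _
  rw [Real.rpow_zero, mul_one, ENNReal.ofReal_toReal (measure_ne_top _ _)]
  apply measure_mono
  intro x hx
  rw [Set.mem_singleton_iff] at hx
  rw [hx]
  exact ⟨by linarith, by linarith⟩

/-- every law has at least linear lower bounds at almost all its points -/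
lemma ae_near {ν : Measure ℝ} [IsProbabilityMeasure ν] :
    ∀ᵐ x ∂ν, ∃ κ : ℝ, 0 < κ ∧ Near ν κ 1 x := by
  filter_upwards [Besicovitch.ae_tendsto_rnDeriv (volume : Measure ℝ) ν,
    Measure.rnDeriv_lt_top (volume : Measure ℝ) ν] with x h1 h2
  obtain ⟨L, hL⟩ : ∃ L : ℝ≥0∞, L = (volume : Measure ℝ).rnDeriv ν x := ⟨_, rfl⟩
  rw [← hL] at h1 h2
  have h3 : ∀ᶠ r in 𝓝[>] (0 : ℝ), volume (Metric.closedBall x r) / ν (Metric.closedBall x r) <
      L + 1 := h1.eventually (gt_mem_nhds (ENNReal.lt_add_right h2.ne one_ne_zero))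
  obtain ⟨δ, hδ, h4⟩ := mem_nhdsGT_iff_exists_Ioo_subset.1 h3
  have hδ' : (0 : ℝ) < δ := hδ
  have hL1 : L + 1 ≠ ∞ := by simp [h2.ne]
  obtain ⟨M, hM⟩ : ∃ M : ℝ, M = (L + 1).toReal := ⟨_, rfl⟩
  have hML : ENNReal.ofReal M = L + 1 := by rw [hM, ENNReal.ofReal_toReal hL1]
  have hM0 : 0 < M := by
    rw [hM]
    exact ENNReal.toReal_pos (by simp) hL1
  have hball : ∀ r : ℝ, Metric.closedBall x r = Set.Icc (x - r) (x + r) := fun r =>
    Real.closedBall_eq_Icc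
  have h5 : ∀ r : ℝ, 0 < r → r < δ → ENNReal.ofReal (2 * r / M) ≤ ν (Set.Icc (x - r) (x + r)) := by
    intro r hr0 hrδ
    have h6 := h4 (Set.mem_Ioo.2 ⟨hr0, hrδ⟩)
    simp only [Set.mem_ofPred_eq] at h6
    rw [hball, Real.volume_Icc, ← hML] at h6
    have h7 : x + r - (x - r) = 2 * r := by ring
    rw [h7] at h6
    have h8 := h6.le
    rw [ENNReal.div_le_iff_le_mul (Or.inr ENNReal.ofReal_ne_top) (Or.inl (measure_ne_top _ _))] at h8
    rw [ENNReal.ofReal_div_of_pos hM0]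
    rw [ENNReal.div_le_iff_le_mul (Or.inl (by simpa using hM0)) (Or.inl ENNReal.ofReal_ne_top)]
    rw [mul_comm (ν _)]
    exact h8
  obtain ⟨κ, hκ⟩ : ∃ κ : ℝ, κ = min (2 / M) (δ / M) := ⟨_, rfl⟩
  have hκ0 : 0 < κ := by rw [hκ]; exact lt_min (by positivity) (by positivity)
  refine ⟨κ, hκ0, fun ε h0 h1 => ?_⟩
  rw [Real.rpow_one]
  by_cases hε : ε < δ
  · refine le_trans (ENNReal.ofReal_le_ofReal ?_) (h5 ε h0 hε)
    have : κ ≤ 2 / M := by rw [hκ]; exact min_le_left _ _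
    calc κ * ε ≤ 2 / M * ε := mul_le_mul_of_nonneg_right this h0.le
      _ = 2 * ε / M := by ring
  · push Not at hε
    refine le_trans (le_trans (ENNReal.ofReal_le_ofReal ?_) (h5 (δ / 2) (by linarith)
      (by linarith))) (measure_mono (Set.Icc_subset_Icc (by linarith) (by linarith)))
    have : κ ≤ δ / M := by rw [hκ]; exact min_le_right _ _
    calc κ * ε ≤ κ * 1 := mul_le_mul_of_nonneg_left h1 hκ0.le
      _ ≤ 2 * (δ / 2) / M := by
        rw [mul_one]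
        refine this.trans (le_of_eq ?_)
        ring

/-- two points with linear lower bounds -/
lemma exists_near {ν : Measure ℝ} [IsProbabilityMeasure ν] (h : ∀ a, ν {a} ≠ 1) :
    ∃ p q κ : ℝ, p ≠ q ∧ 0 < κ ∧ Near ν κ 1 p ∧ Near ν κ 1 q := by
  have h1 := ae_near (ν := ν)
  obtain ⟨p, κ₁, hκ₁, hp⟩ := h1.exists
  have h2 : ∃ q, q ≠ p ∧ ∃ κ : ℝ, 0 < κ ∧ Near ν κ 1 q := by
    by_contra h3
    push Not at h3
    apply h p
    have h4 : ∀ᵐ x ∂ν, x ∈ ({p} : Set ℝ) := by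
      filter_upwards [h1] with x hx
      by_contra h5
      obtain ⟨κ, hκ, hx⟩ := hx
      exact h3 x h5 κ hκ hx
    rw [← prob_compl_eq_zero_iff (measurableSet_singleton p)]
    exact h4
  obtain ⟨q, hqp, κ₂, hκ₂, hq⟩ := h2
  exact ⟨p, q, min κ₁ κ₂, hqp.symm, lt_min hκ₁ hκ₂, hp.mono (min_le_left _ _),
    hq.mono (min_le_right _ _)⟩

end Pool.Agent.Q234.AH
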