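import Pool.Agent.Q234.AH.DetMain

/-!
# Anderson model on horns: the almost sure conclusion
-/

set_option autoImplicit false

noncomputable section

namespace Pool.Agent.Q234.AH

open Complex MeasureTheory Filter
open scoped ENNReal Topology InnerProductSpace
open Pool.Agent.H12R2.And (Rz gg)

variable {d : ℕ}

/-- lower bound of the law near `p` -/
def Near (ν : Measure ℝ) (κ θ p : ℝ) : Prop :=
  ∀ ε : ℝ, 0 < ε → ε ≤ 1 → ENNReal.ofReal (κ * ε ^ θ) ≤ ν (Set.Icc (p - ε) (p + ε))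

/-- purely singular spectrum -/
def Sing {F : Type*} [NormedAddCommGroup F] [InnerProductSpace ℂ F] (T : F →L[ℂ] F) : Prop :=
  ∀ (ψ : F) (μ : Measure ℝ), IsFiniteMeasure μ →
    (∀ z : ℂ, z.im ≠ 0 → (∫ x, ((x : ℂ) - z)⁻¹ ∂μ) =
      inner ℂ ψ (Ring.inverse (T - z • (1 : F →L[ℂ] F)) ψ)) →
    μ ⟂ₘ (volume : Measure ℝ)

/-- length of the windows -/
def ell (C : ℝ) (k : ℕ) : ℕ := ⌈C * (11 * Real.log ((k : ℝ) + 2) + 1)⌉₊

lemma ell_le {C : ℝ} (hC : 1 ≤ C) (k : ℕ) : (ell C k : ℝ) ≤ 15 * C * Real.log ((k : ℝ) + 2) := by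
  have hx := x_ge k
  have h1 : (ell C k : ℝ) < C * (11 * Real.log ((k : ℝ) + 2) + 1) + 1 :=
    Nat.ceil_lt_add_one (by positivity)
  nlinarith

lemma ell_ge {C : ℝ} (hC : 1 ≤ C) (k : ℕ) {c : ℕ} (hc0 : 0 < c) (hc : c ≤ k + 2) :
    C * (Real.log c + Real.log (1 / (1 / ((k : ℝ) + 2) ^ 10)) + 1) ≤ ell C k := by
  have h1 : C * (11 * Real.log ((k : ℝ) + 2) + 1) ≤ ell C k := Nat.le_ceil _
  refine le_trans ?_ h1
  rw [one_div_one_div, Real.log_pow]
  have h2 : Real.log c ≤ Real.log ((k : ℝ) + 2) :=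
    Real.log_le_log (by exact_mod_cast hc0) (by exact_mod_cast hc)
  push_cast
  apply mul_le_mul_of_nonneg_left _ (by linarith)
  linarith

lemma one_le_ell {C : ℝ} (hC : 1 ≤ C) (k : ℕ) : 1 ≤ ell C k := by
  unfold ell
  rw [Nat.one_le_ceil_iff]
  have hx := x_ge k
  positivity

/-- the word and the bad energies of BAR for each scale and each width -/
lemma exists_word {p q N C : ℝ} (hd : 1 ≤ d) (hN : 4 * ((d : ℝ) + 1) ≤ N) (hC : 1 ≤ C)
    (hbar : ∀ (Y : Type) [Fintype Y] [DecidableEq Y] [Nonempty Y] (A : Matrix Y Y ℝ), A.IsSymm →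
      (∀ f : Y → ℝ, ∑ y, (A.mulVec f y) ^ 2 ≤ N ^ 2 * ∑ y, f y ^ 2) →
      ∀ s : ℝ, 0 < s → s ≤ 1 →
      ∀ ℓ : ℕ, C * (Real.log (Fintype.card Y) + Real.log (1 / s) + 1) ≤ ℓ →
      ∃ (b : Fin ℓ → Bool) (Bad : Set ℝ), MeasurableSet Bad ∧ volume Bad ≤ ENNReal.ofReal s ∧
        ∀ E : ℝ, |E| ≤ N → E ∉ Bad → ∀ W : ℕ → Y → ℝ,
          (∀ (i : Fin ℓ) (y : Y), |W i y - (if b i then p else q)| ≤ Real.exp (-(C * ℓ))) →
          ∀ f : ℕ → Y → ℝ,
            (∀ i < ℓ, ∀ y, W i y * f (i + 1) y + A.mulVec (f (i + 1)) y - f i y - f (i + 2) y =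
              E * f (i + 1) y) →
            (∀ y, f (ℓ + 1) y = 0) →
            ∑ y, f ℓ y ^ 2 ≤ s ^ 2 * ∑ y, f 0 y ^ 2)
    (k m : ℕ) : ∃ (b : Fin (ell C k) → Bool) (Bad : Set ℝ), (2 * m + 1) ^ d ≤ k + 2 →
      MeasurableSet Bad ∧ volume Bad ≤ ENNReal.ofReal (1 / ((k : ℝ) + 2) ^ 10) ∧
      ∀ E : ℝ, |E| ≤ N → E ∉ Bad → ∀ W : ℕ → Bx d m → ℝ,
        (∀ (i : Fin (ell C k)) (y : Bx d m), |W i y - (if b i then p else q)| ≤
          Real.exp (-(C * ell C k))) →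
        ∀ f : ℕ → Bx d m → ℝ,
          (∀ i < ell C k, ∀ y, W i y * f (i + 1) y + (tr d m).mulVec (f (i + 1)) y - f i y -
            f (i + 2) y = E * f (i + 1) y) →
          (∀ y, f (ell C k + 1) y = 0) →
          ∑ y, f (ell C k) y ^ 2 ≤ (1 / ((k : ℝ) + 2) ^ 10) ^ 2 * ∑ y, f 0 y ^ 2 := by
  by_cases hm : (2 * m + 1) ^ d ≤ k + 2
  · have hcb : Fintype.card (Bx d m) = (2 * m + 1) ^ d := by
      rw [Fintype.card_coe, card_Bx]
    obtain ⟨b, Bad, h1, h2, h3⟩ := hbar (Bx d m) (tr d m) (tr_symm d m) (fun f => by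
      refine (tr_norm hd m f).trans ?_
      apply mul_le_mul_of_nonneg_right _ (Finset.sum_nonneg fun _ _ => sq_nonneg _)
      exact pow_le_pow_left₀ (by positivity) hN 2) (1 / ((k : ℝ) + 2) ^ 10) (by positivity)
      (by
        rw [div_le_one (by positivity)]
        exact one_le_pow₀ (by linarith [(Nat.cast_nonneg k : (0 : ℝ) ≤ k)]))
      (ell C k) (by
        rw [hcb]
        exact ell_ge hC k (by positivity) hm)
    exact ⟨b, Bad, fun _ => ⟨h1, h2, h3⟩⟩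
  · exact ⟨fun _ => false, ∅, fun h => absurd h hm⟩

lemma tgt_near {ν : Measure ℝ} [IsProbabilityMeasure ν] {κ θ p q r : ℝ} (hr : 0 < r) (hr1 : r ≤ 1)
    (hp : Near ν κ θ p) (hq : Near ν κ θ q) {ℓ : ℕ} (b : Fin ℓ → Bool) (a : ℕ) (x : V d) :
    ENNReal.ofReal (κ * r ^ θ) ≤ ν (tgt p q r b a x) := by
  unfold tgt
  by_cases h : idx a x < ℓ
  · rw [dif_pos h]
    cases hb : b ⟨idx a x, h⟩
    · simp only [Bool.false_eq_true, if_false]
      exact hq r hr hr1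
    · simp only [if_true]
      exact hp r hr hr1
  · rw [dif_neg h]
    exact (hp r hr hr1).trans (measure_mono (Set.subset_univ _))

/-- the probability of the target -/
lemma prob_ge {κ θ C P x c : ℝ} {ℓ k : ℕ} (hκ : 0 < κ) (hθ : 0 ≤ θ) (hC : 1 ≤ C) (hx : 1 / 2 ≤ x)
    (hℓ : (ℓ : ℝ) ≤ 15 * C * x) (hP : 0 ≤ P)
    (hQ : P * x * (1 + θ * x) ≤ 8 * c * (k + 1))
    (hc : c * (64 * (15 * C) * (|Real.log κ| + C * (15 * C))) ≤ 1) :
    Real.exp (-(((k : ℝ) + 1) / 8)) ≤ (κ * Real.exp (-(C * ℓ)) ^ θ) ^ (ℓ * P : ℝ) := by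
  have h1 : κ * Real.exp (-(C * ℓ)) ^ θ = Real.exp (Real.log κ - θ * C * ℓ) := by
    rw [← Real.exp_mul, sub_eq_add_neg, Real.exp_add, Real.exp_log hκ]
    congr 2
    ring
  rw [h1, ← Real.exp_mul]
  apply Real.exp_le_exp.2
  have hℓ0 : (0 : ℝ) ≤ ℓ := Nat.cast_nonneg ℓ
  have hL0 : 0 ≤ |Real.log κ| := abs_nonneg _
  have hL : -|Real.log κ| ≤ Real.log κ := neg_abs_le _
  obtain ⟨A, hA⟩ : ∃ A, A = 15 * C := ⟨_, rfl⟩
  obtain ⟨L, hL'⟩ : ∃ L, L = |Real.log κ| := ⟨_, rfl⟩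
  rw [← hA] at hℓ hc
  rw [← hL'] at hL0 hL hc
  have hA0 : 0 < A := by rw [hA]; linarith
  have hx0 : 0 < x := by linarith
  have h2 : (ℓ : ℝ) * P * (L + θ * C * ℓ) ≤ (A * x) * P * (L + θ * C * (A * x)) := by
    gcongr
  have h3 : L + θ * C * (A * x) ≤ (L + C * A) * (1 + θ * x) := by
    have : 0 ≤ L * (θ * x) + C * A := by positivity
    nlinarith
  have h4 : (A * x) * P * (L + θ * C * (A * x)) ≤ (A * x) * P * ((L + C * A) * (1 + θ * x)) :=
    mul_le_mul_of_nonneg_left h3 (by positivity)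
  have h5 : (A * x) * P * ((L + C * A) * (1 + θ * x)) ≤ A * (L + C * A) * (8 * c * (k + 1)) := by
    have : 0 ≤ A * (L + C * A) := by positivity
    calc _ = A * (L + C * A) * (P * x * (1 + θ * x)) := by ring
      _ ≤ _ := mul_le_mul_of_nonneg_left hQ this
  have h6 : A * (L + C * A) * (8 * c * (k + 1)) ≤ ((k : ℝ) + 1) / 8 := by
    have hk : (0 : ℝ) ≤ (k : ℝ) + 1 := by positivity
    have := mul_le_mul_of_nonneg_right hc hk
    nlinarith
  have h7 : (Real.log κ - θ * C * ℓ) * (ℓ * P) ≥ -(ℓ * P * (L + θ * C * ℓ)) := by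
    have : 0 ≤ (ℓ : ℝ) * P := by positivity
    nlinarith [mul_le_mul_of_nonneg_left hL this]
  linarith

/-- almost surely the potential is bounded -/
lemma ae_bounded {ν : Measure ℝ} [IsProbabilityMeasure ν] {K : ℝ}
    (hK : ν (Set.Icc (-K) K)ᶜ = 0) :
    ∀ᵐ ω ∂(Measure.infinitePi fun _ : V d => ν), ∀ x, |ω x| ≤ K := by
  rw [ae_all_iff]
  intro x
  have h1 : ∀ᵐ t ∂ν, |t| ≤ K := by
    rw [ae_iff]
    convert hK using 2
    ext t
    simp [abs_le]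
  exact (measurePreserving_eval_infinitePi (fun _ : V d => ν) x).quasiMeasurePreserving.ae h1

/-- **Main theorem** -/
theorem main (hweak : S_weak) (hbar : S_bar) (hprob : S_prob) (hd : 1 ≤ d) (p q K κ θ : ℝ)
    (hpq : p ≠ q) (hκ : 0 < κ) (hθ : 0 ≤ θ) :
    ∃ c : ℝ, 0 < c ∧ ∀ (ν : Measure ℝ) [IsProbabilityMeasure ν], ν (Set.Icc (-K) K)ᶜ = 0 →
      Near ν κ θ p → Near ν κ θ q → ∀ w : ℕ → ℕ, Monotone w →
      (∃ᶠ n : ℕ in atTop, ((2 * w n + 1 : ℕ) : ℝ) ^ d * Real.log (Real.log n) *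
        (1 + θ * Real.log (Real.log n)) ≤ c * Real.log n) →
      ∀ᵐ ω ∂(Measure.infinitePi fun _ : V d => ν),
        ∀ T : lp (fun _ : Horn d w => ℂ) 2 →L[ℂ] lp (fun _ : Horn d w => ℂ) 2,
          IsA (Horn d w) ω T → Sing T := by
  classical
  obtain ⟨N, hN⟩ : ∃ N : ℝ, N = 2 * (4 * ((d : ℝ) + 1) + |K|) + 1 := ⟨_, rfl⟩
  have hN1 : 1 ≤ N := by rw [hN]; linarith [abs_nonneg K, (Nat.cast_nonneg d : (0 : ℝ) ≤ d)]
  have hNd : 4 * ((d : ℝ) + 1) ≤ N := by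
    rw [hN]; linarith [abs_nonneg K, (Nat.cast_nonneg d : (0 : ℝ) ≤ d)]
  obtain ⟨Cw, hCw, hweak'⟩ := hweak N hN1
  obtain ⟨C, hC, hbar'⟩ := hbar p q N hpq hN1
  have hword := exists_word (d := d) hd hNd hC hbar'
  choose b Bad hb using hword
  obtain ⟨B, hB⟩ : ∃ B : ℝ, B = 64 * (15 * C) * (|Real.log κ| + C * (15 * C)) := ⟨_, rfl⟩
  have hB0 : 0 < B := by
    rw [hB]
    have := abs_nonneg (Real.log κ)
    positivity
  obtain ⟨c, hc⟩ : ∃ c : ℝ, c = min (1 / 16) (1 / B) := ⟨_, rfl⟩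
  have hc0 : 0 < c := by rw [hc]; exact lt_min (by norm_num) (by positivity)
  have hc1 : c ≤ 1 / 16 := by rw [hc]; exact min_le_left _ _
  have hc2 : c * B ≤ 1 := by
    have : c ≤ 1 / B := by rw [hc]; exact min_le_right _ _
    rwa [le_div_iff₀ hB0] at this
  refine ⟨c, hc0, ?_⟩
  intro ν _ hνK hp hq w hw hfr
  -- the scales
  have hfr2 := (freq_scale hw d hθ hc0 hfr).and_eventually
    (num_main (15 * C) (by linarith))
  obtain ⟨k, hkm, hk⟩ := extraction_of_frequently_atTop hfr2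
  have hki : ∀ i, i ≤ k i := hkm.id_le
  have hP : ∀ i, (2 * w (2 ^ (k i + 1)) + 1) ^ d ≤ k i + 2 := by
    intro i
    have h1 := (hk i).1
    have hx := x_ge (k i)
    obtain ⟨x, hx'⟩ : ∃ x, x = Real.log ((k i : ℝ) + 2) := ⟨_, rfl⟩
    obtain ⟨P, hP'⟩ : ∃ P, P = ((2 * w (2 ^ (k i + 1)) + 1 : ℕ) : ℝ) ^ d := ⟨_, rfl⟩
    rw [← hx'] at hx h1
    rw [← hP'] at h1
    have hP0 : 0 ≤ P := by rw [hP']; positivity
    have h2 : P * (1 / 2) ≤ P * x * (1 + θ * x) := by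
      have : P * (1 / 2) ≤ P * x := mul_le_mul_of_nonneg_left hx hP0
      have h3 : 0 ≤ P * x * (θ * x) := by positivity
      nlinarith
    have h3 : P ≤ (k i : ℝ) + 1 := by
      have : 8 * c * ((k i : ℝ) + 1) ≤ 8 * (1 / 16) * ((k i : ℝ) + 1) := by gcongr
      linarith
    have h4 : (((2 * w (2 ^ (k i + 1)) + 1) ^ d : ℕ) : ℝ) ≤ ((k i + 1 : ℕ) : ℝ) := by
      rw [hP'] at h3
      exact_mod_cast h3
    have h5 : (2 * w (2 ^ (k i + 1)) + 1) ^ d ≤ k i + 1 := by exact_mod_cast h4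
    omega
  have hWk : ∀ i, w (2 ^ (k i + 1)) ≤ k i + 2 := by
    intro i
    refine le_trans ?_ (hP i)
    calc w (2 ^ (k i + 1)) ≤ 2 * w (2 ^ (k i + 1)) + 1 := by omega
      _ ≤ (2 * w (2 ^ (k i + 1)) + 1) ^ d := Nat.le_self_pow (by omega) _
  -- the windows
  obtain ⟨ℓ, hℓ⟩ : ∃ ℓ : ℕ → ℕ, ℓ = fun i => ell C (k i) := ⟨_, rfl⟩
  obtain ⟨J, hJ⟩ : ∃ J : ℕ → ℕ, J = fun i => 2 ^ (k i) / (ell C (k i) + 2) := ⟨_, rfl⟩
  obtain ⟨FF, hFF⟩ : ∃ FF : ℕ → Finset ℕ, FF = fun i => Fl w (2 ^ (k i)) (ell C (k i)) (J i) :=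
    ⟨_, rfl⟩
  obtain ⟨aw, haw⟩ : ∃ aw : (i : ℕ) → Fin ((FF i).card) → ℕ,
      aw = fun i j => st (2 ^ (k i)) (ell C (k i)) ((FF i).equivFin.symm j : ℕ) := ⟨_, rfl⟩
  have hst : ∀ i, st (2 ^ (k i)) (ell C (k i)) (J i) ≤ 2 ^ (k i + 1) := by
    intro i
    unfold st
    have : J i * (ell C (k i) + 2) ≤ 2 ^ (k i) := by
      rw [hJ]
      exact Nat.div_mul_le_self _ _
    rw [pow_succ]
    omega
  have haw1 : ∀ i j, w (aw i j) = w (aw i j + ell C (k i) + 1) ∧ 2 ^ (k i) ≤ aw i j ∧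
      aw i j + ell C (k i) + 1 ≤ 2 ^ (k i + 1) := by
    intro i j
    have h1 := ((FF i).equivFin.symm j).2
    have h1' : ((FF i).equivFin.symm j : ℕ) ∈ Fl w (2 ^ (k i)) (ell C (k i)) (J i) := by
      have e : FF i = Fl w (2 ^ (k i)) (ell C (k i)) (J i) := by rw [hFF]
      exact e ▸ h1
    unfold Fl at h1'
    rw [Finset.mem_filter, Finset.mem_range] at h1'
    have e2 : aw i j = st (2 ^ (k i)) (ell C (k i)) ((FF i).equivFin.symm j : ℕ) := by rw [haw]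
    rw [e2]
    refine ⟨h1'.2, ?_, ?_⟩
    · unfold st; omega
    · refine le_trans ?_ (hst i)
      unfold st
      have h3 : (((FF i).equivFin.symm j : ℕ) + 1) * (ell C (k i) + 2) ≤
        J i * (ell C (k i) + 2) := Nat.mul_le_mul_right _ h1'.1
      rw [Nat.add_mul, one_mul] at h3
      omega
  have hdisj : ∀ i (j j' : Fin ((FF i).card)), j ≠ j' →
      aw i j + ell C (k i) + 1 ≤ aw i j' ∨ aw i j' + ell C (k i) + 1 ≤ aw i j := by
    intro i j j' hjj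
    have hne : ((FF i).equivFin.symm j : ℕ) ≠ ((FF i).equivFin.symm j' : ℕ) := by
      intro h
      exact hjj ((FF i).equivFin.symm.injective (Subtype.ext h))
    rw [haw]
    simp only [st]
    rcases Nat.lt_or_gt_of_ne hne with h | h
    · left
      have h3 : (((FF i).equivFin.symm j : ℕ) + 1) * (ell C (k i) + 2) ≤
        ((FF i).equivFin.symm j' : ℕ) * (ell C (k i) + 2) := Nat.mul_le_mul_right _ h
      rw [Nat.add_mul, one_mul] at h3
      omega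
    · right
      have h3 : (((FF i).equivFin.symm j' : ℕ) + 1) * (ell C (k i) + 2) ≤
        ((FF i).equivFin.symm j : ℕ) * (ell C (k i) + 2) := Nat.mul_le_mul_right _ h
      rw [Nat.add_mul, one_mul] at h3
      omega
  have hcardF : ∀ i, J i ≤ (FF i).card + w (2 ^ (k i + 1)) := by
    intro i
    have h1 := Fl_card hw (2 ^ (k i)) (ell C (k i)) (J i)
    have h2 := hw (hst i)
    have e : FF i = Fl w (2 ^ (k i)) (ell C (k i)) (J i) := by rw [hFF]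
    rw [e]
    omega
  -- probability
  have hrad : ∀ i, 0 < Real.exp (-(C * ell C (k i))) ∧ Real.exp (-(C * ell C (k i))) ≤ 1 :=
    fun i => ⟨Real.exp_pos _, Real.exp_le_one_iff.2 (by
      have : 0 ≤ C * (ell C (k i) : ℝ) := by positivity
      linarith)⟩
  have hpr := hprob (V d) ν (fun i => (FF i).card)
    (fun i => ell C (k i) * (2 * w (2 ^ (k i + 1)) + 1) ^ d)
    (fun i => κ * Real.exp (-(C * ell C (k i))) ^ θ)
    (fun i j => Win d (aw i j) (ell C (k i)) (w (aw i j)))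
    (fun i j => tgt p q (Real.exp (-(C * ell C (k i)))) (b (k i) (w (aw i j))) (aw i j))
    (fun i => by positivity)
    (fun i j x => tgt_meas _ _ _ _ _ _)
    (fun i j x => tgt_near (hrad i).1 (hrad i).2 hp hq _ _ _)
    (fun i j => (Win_card _ _ _ _).trans (by
      apply Nat.mul_le_mul_left
      apply Nat.pow_le_pow_left
      have := hw (show aw i j ≤ 2 ^ (k i + 1) by have := (haw1 i j).2.2; omega)
      omega))
    (fun i j j' hjj => Win_disj (hdisj i j j' hjj))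
    (by
      refine Summable.of_nonneg_of_le (fun i => (Real.exp_pos _).le) (fun i => ?_)
        Real.summable_exp_neg_nat
      apply Real.exp_le_exp.2
      have h1 := (hk i).2 (ell C (k i)) (w (2 ^ (k i + 1))) (ell_le hC (k i)) (hWk i)
      have h2 := prob_ge (ℓ := ell C (k i)) (k := k i) (c := c) hκ hθ hC (x_ge (k i))
        (ell_le hC (k i))
        (by positivity : 0 ≤ ((2 * w (2 ^ (k i + 1)) + 1 : ℕ) : ℝ) ^ d) (hk i).1
        (by rw [← hB]; exact hc2)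
      have h3 : (((2 ^ k i / (ell C (k i) + 2) : ℕ) : ℝ) - (w (2 ^ (k i + 1)) : ℝ)) ≤
          ((FF i).card : ℝ) := by
        have h4 := hcardF i
        have e : J i = 2 ^ k i / (ell C (k i) + 2) := by rw [hJ]
        rw [e] at h4
        have h5 : ((2 ^ k i / (ell C (k i) + 2) : ℕ) : ℝ) ≤
          ((FF i).card : ℝ) + (w (2 ^ (k i + 1)) : ℝ) := by exact_mod_cast h4
        linarith
      have h6 : ((ell C (k i) : ℝ) * ((2 * w (2 ^ (k i + 1)) + 1 : ℕ) : ℝ) ^ d) =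
          ((ell C (k i) * (2 * w (2 ^ (k i + 1)) + 1) ^ d : ℕ) : ℝ) := by push_cast; ring
      rw [h6, Real.rpow_natCast] at h2
      have h7 : (i : ℝ) ≤ k i := by exact_mod_cast hki i
      have h8 : (k i : ℝ) ≤ ((FF i).card : ℝ) * (κ * Real.exp (-(C * ell C (k i))) ^ θ) ^
          (ell C (k i) * (2 * w (2 ^ (k i + 1)) + 1) ^ d) := by
        refine h1.trans ?_
        refine mul_le_mul h3 h2 (Real.exp_pos _).le (Nat.cast_nonneg _)
      linarith)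
  filter_upwards [hpr, ae_bounded (d := d) hνK] with ω hω hωK T hT ψ μ hμf hμ
  have hTN : 2 * ‖T‖ ≤ N := by
    have h1 := hT.norm_le (K := |K|) (fun x => (hωK x).trans (le_abs_self K))
    rw [hN]
    linarith
  refine det_main hN1 hCw hweak' hw hT hTN hki ?_ ψ hμ
  filter_upwards [hω] with i hi
  obtain ⟨j, hj⟩ := hi
  obtain ⟨h1, h2, h3⟩ := haw1 i j
  have h4 : (2 * w (aw i j) + 1) ^ d ≤ k i + 2 := by
    refine le_trans (Nat.pow_le_pow_left ?_ d) (hP i)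
    have := hw (show aw i j ≤ 2 ^ (k i + 1) by omega)
    omega
  obtain ⟨g1, g2, g3⟩ := hb (k i) (w (aw i j)) h4
  refine ⟨aw i j, ell C (k i), w (aw i j), rfl, h1.symm, one_le_ell hC _, h2, h3, hP i,
    Bad (k i) (w (aw i j)), g1, g2, ?_⟩
  intro E hE1 hE2 f hf1 hf2
  refine g3 E hE1 hE2 (fun i' y => ω (pt ((aw i j + (i' + 1) : ℕ) : ℤ) (y : Fin d → ℤ)))
    (fun i' y => ?_) f hf1 hf2
  exact tgt_pt (hj _ (pt_mem_Win i'.2 y.2))

end Pool.Agent.Q234.AH
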