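import Pool.Agent.Q234.AH.Step
import Pool.Agent.Q234.AH.Stm

/-!
# Anderson model on horns: one scale
-/

set_option autoImplicit false

noncomputable section

namespace Pool.Agent.Q234.AH

open Complex MeasureTheory Filter
open scoped ENNReal Topology InnerProductSpace
open Pool.Agent.H12R2.And (Rz gg)

variable {d : ℕ}

/-- bound for the entries -/
def KK (C mm n s : ℝ) : ℝ := C * mm * (Real.log n + Real.log (1 / s) + 1) / s

theorem scale {N Cw : ℝ} (hCw : 1 ≤ Cw)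
    (hweak : ∀ (ι : Type) [Fintype ι] [DecidableEq ι] (A : Matrix ι ι ℝ), A.IsSymm →
      ∀ (x₀ : ι) (Z : Finset ι) (s : ℝ), 0 < s → s ≤ 1 → Z.Nonempty →
      ∃ Bad : Set ℝ, MeasurableSet Bad ∧ volume Bad ≤ ENNReal.ofReal s ∧
        ∀ E : ℝ, |E| ≤ N → E ∉ Bad →
          (∀ f : ι → ℝ, (s / (4 * Fintype.card ι)) ^ 2 * ∑ i, f i ^ 2 ≤
            ∑ i, (A.mulVec f i - E * f i) ^ 2) ∧
          ∀ r : ι → ℝ, (∀ x, A.mulVec r x - E * r x = if x = x₀ then 1 else 0) →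
            ∀ z ∈ Z, |r z| ≤
              Cw * Z.card * (Real.log (Fintype.card ι) + Real.log (1 / s) + 1) / s)
    {w : ℕ → ℕ} (hw : Monotone w) {ω : V d → ℝ}
    {T : lp (fun _ : Horn d w => ℂ) 2 →L[ℂ] lp (fun _ : Horn d w => ℂ) 2}
    (hT : IsA (Horn d w) ω T) (hTN : 2 * ‖T‖ ≤ N)
    {a ℓ m : ℕ} (ha : w a = m) (hb : w (a + ℓ + 1) = m) (hℓ : 1 ≤ ℓ)
    {s sb : ℝ} (hs : 0 < s) (hs1 : s ≤ 1)
    {BadB : Set ℝ} (hBm : MeasurableSet BadB) (hBv : volume BadB ≤ ENNReal.ofReal sb)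
    (hbar : ∀ E : ℝ, |E| ≤ N → E ∉ BadB → ∀ f : ℕ → Bx d m → ℝ,
      (∀ i < ℓ, ∀ y : Bx d m, ω (pt ((a + (i + 1) : ℕ) : ℤ) (y : Fin d → ℤ)) * f (i + 1) y +
        (tr d m).mulVec (f (i + 1)) y - f i y - f (i + 2) y = E * f (i + 1) y) →
      (∀ y, f (ℓ + 1) y = 0) → ∑ y, f ℓ y ^ 2 ≤ sb ^ 2 * ∑ y, f 0 y ^ 2)
    (x₀ : Horn d w) (hx₀ : (x₀ : V d) 0 ≤ a) :
    ∃ G : Set ℝ, MeasurableSet G ∧ G ⊆ Set.Ioc (-N) N ∧
      volume (Set.Ioc (-N) N \ G) ≤ ENNReal.ofReal s + ENNReal.ofReal sb ∧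
      ∀ ε : ℝ, 0 < ε → ε ≤ N →
        ∫⁻ E in G, gg T (lp.single 2 x₀ 1) ε E ≤
          ENNReal.ofReal (12 * ε * (1 / (s / (4 * (Fh d w (a + ℓ)).card)) ^ 2) * N +
            24 * (sb ^ 2 * ((Bx d m).card *
              (KK Cw (Bx d m).card (Fh d w (a + ℓ)).card s) ^ 2)) * (Bx d m).card) := by
  classical
  obtain ⟨F, hF⟩ : ∃ F, F = Fh d w (a + ℓ) := ⟨_, rfl⟩
  have hx₀F : (x₀ : V d) ∈ F := by
    rw [hF, mem_Fh hw]
    refine ⟨x₀.2, hx₀.trans ?_⟩
    push_cast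
    linarith [(Nat.cast_nonneg ℓ : (0 : ℤ) ≤ ℓ)]
  have hsub : ∀ x, x ∈ F → x ∈ Fh d w (a + ℓ) := fun x hx => by rw [← hF]; exact hx
  have hcard : 0 < (F.card : ℝ) := by
    exact_mod_cast Finset.card_pos.2 ⟨_, hx₀F⟩
  obtain ⟨Z, hZ⟩ : ∃ Z : Finset F, Z = Finset.univ.filter fun z : F => (z : V d) 0 = a := ⟨_, rfl⟩
  have hZne : Z.Nonempty := by
    have h0 : pt ((a : ℕ) : ℤ) (0 : Fin d → ℤ) ∈ F := by
      rw [hF, mem_Fh hw, pt_mem_Horn]
      refine ⟨by rw [mem_Bx]; simp, ?_⟩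
      simp only [pt, Fin.cons_zero]
      push_cast
      linarith [(Nat.cast_nonneg ℓ : (0 : ℤ) ≤ ℓ)]
    refine ⟨⟨_, h0⟩, ?_⟩
    rw [hZ, Finset.mem_filter]
    exact ⟨Finset.mem_univ _, by simp [pt]⟩
  have hZc : Z.card ≤ (Bx d m).card := by
    refine Finset.card_le_card_of_injOn (fun z : F => fun i => (z : V d) i.succ) ?_ ?_
    · intro z hz
      rw [hZ, Finset.mem_coe, Finset.mem_filter] at hz
      have h1 : (z : V d) ∈ Horn d w := ((mem_Fh hw).1 (hsub _ z.2)).1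
      rw [← pt_eta (z : V d), hz.2, pt_mem_Horn, ha] at h1
      exact h1
    · intro z hz z' hz' h
      rw [hZ, Finset.mem_coe, Finset.mem_filter] at hz hz'
      apply Subtype.ext
      rw [← pt_eta (z : V d), ← pt_eta (z' : V d), hz.2, hz'.2]
      exact congrArg _ h
  obtain ⟨Bad, hBad1, hBad2, hBad3⟩ := hweak F (mat ω F) (mat_symm ω F) ⟨_, hx₀F⟩ Z s hs hs1 hZne
  refine ⟨Set.Ioc (-N) N \ (Bad ∪ BadB), measurableSet_Ioc.diff (hBad1.union hBm),
    Set.sdiff_subset, ?_, ?_⟩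
  · rw [Set.sdiff_sdiff_right_self]
    refine (measure_mono Set.inter_subset_right).trans ((measure_union_le _ _).trans ?_)
    exact add_le_add hBad2 hBv
  · intro ε hε hεN
    have hcc : Fintype.card F = F.card := Fintype.card_coe F
    have hcb : Fintype.card (Bx d m) = (Bx d m).card := Fintype.card_coe _
    refine (int_gg hT.isSelfAdjoint (Finset.univ : Finset (Bx d m)) (lp.single 2 x₀ 1)
      (fun v => lp.single 2 (lay hb v) 1) (measurableSet_Ioc.diff (hBad1.union hBm)) hε hεN hTN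
      Set.sdiff_subset (A := 1 / (s / (4 * F.card)) ^ 2)
      (B := sb ^ 2 * ((Bx d m).card * (KK Cw (Bx d m).card F.card s) ^ 2))
      (by positivity) (by positivity) (fun v _ => ?_) ?_).trans ?_
    · rw [lp.norm_single (by norm_num)]
      simp
    · rintro E ⟨hE1, hE2⟩
      rw [Set.mem_union, not_or] at hE2
      have hEN : |E| ≤ N := by
        rw [abs_le]
        exact ⟨hE1.1.le, hE1.2⟩
      obtain ⟨h1, h2⟩ := hBad3 E hEN hE2.1
      rw [hcc] at h1
      have h3 := step hw hT ha hb hℓ (E := E) (sb := sb) (c0 := (s / (4 * F.card)) ^ 2)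
        (Kw := KK Cw (Bx d m).card F.card s) (by positivity) x₀ hx₀
        (by rw [← hF]; exact h1)
        (by
          rw [← hF]
          intro r hr z hz
          refine (h2 r (fun x => ?_) z ?_).trans ?_
          · rw [hr x]
            by_cases h : (x : V d) = x₀
            · rw [if_pos h, if_pos (Subtype.ext h)]
            · rw [if_neg h, if_neg fun h' => h (congrArg Subtype.val h')]
          · rw [hZ, Finset.mem_filter]
            exact ⟨Finset.mem_univ _, hz⟩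
          · rw [hcc]
            unfold KK
            have hlog : 0 ≤ Real.log F.card + Real.log (1 / s) + 1 := by
              have h4 : 0 ≤ Real.log F.card := Real.log_natCast_nonneg _
              have h5 : 0 ≤ Real.log (1 / s) := Real.log_nonneg (by
                rw [le_div_iff₀ hs]; linarith)
              linarith
            have hZc' : (Z.card : ℝ) ≤ (Bx d m).card := by exact_mod_cast hZc
            gcongr)
        (hbar E hEN hE2.2)
      obtain ⟨r, c, h4, h5, h6⟩ := h3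
      refine ⟨r, c, h4, h5, ?_⟩
      rw [hcb] at h6
      exact h6
    · rw [← hF, Finset.card_univ, hcb]

end Pool.Agent.Q234.AH
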