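import Pool.Agent.Q234.AH.Horn

/-!
# Anderson model on horns: one flat window
-/

set_option autoImplicit false

noncomputable section

namespace Pool.Agent.Q234.AH

open Complex MeasureTheory Filter
open scoped ENNReal Topology InnerProductSpace
open Pool.Agent.H12R2.And (Rz gg)

variable {d : ℕ}

/-- the horn of width `w` -/
def Horn (d : ℕ) (w : ℕ → ℕ) : Set (V d) :=
  {x | 0 ≤ x 0 ∧ ∀ i, i ≠ 0 → |x i| ≤ w (x 0).toNat}

/-- extension by zero from a finite set -/
def extR {α : Type*} [DecidableEq α] {F : Finset α} (f : F → ℝ) (z : α) : ℝ :=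
  if h : z ∈ F then f ⟨z, h⟩ else 0

lemma extR_mem {α : Type*} [DecidableEq α] {F : Finset α} (f : F → ℝ) {z : α} (h : z ∈ F) :
    extR f z = f ⟨z, h⟩ := by
  unfold extR
  rw [dif_pos h]

lemma extR_notMem {α : Type*} [DecidableEq α] {F : Finset α} (f : F → ℝ) {z : α} (h : z ∉ F) :
    extR f z = 0 := by
  unfold extR
  rw [dif_neg h]

/-- the matrix of the operator on a finite set -/
def mat (ω : V d → ℝ) (F : Finset (V d)) : Matrix F F ℝ := fun x y => ker ω x y

lemma mat_symm (ω : V d → ℝ) (F : Finset (V d)) : (mat ω F).IsSymm := by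
  ext x y
  exact ker_symm ω y x

lemma mat_mulVec (ω : V d → ℝ) (F : Finset (V d)) (f : F → ℝ) (x : F) :
    (mat ω F).mulVec f x = hopR ω (extR f) x := by
  rw [hopR_eq_sum ω F (extR f) (fun z hz => extR_notMem f hz)]
  rw [← Finset.sum_coe_sort F]
  unfold Matrix.mulVec dotProduct mat
  refine Finset.sum_congr rfl fun y _ => ?_
  rw [extR_mem f y.2]

lemma exists_sol {ι : Type*} [Fintype ι] [DecidableEq ι] (A : Matrix ι ι ℝ) {E c : ℝ}
    (hc : 0 < c) (h : ∀ f : ι → ℝ, c * ∑ i, f i ^ 2 ≤ ∑ i, (A.mulVec f i - E * f i) ^ 2)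
    (g : ι → ℝ) : ∃ r : ι → ℝ, ∀ x, A.mulVec r x - E * r x = g x := by
  have hinj : Function.Injective (A.mulVecLin - E • (LinearMap.id : (ι → ℝ) →ₗ[ℝ] ι → ℝ)) := by
    rw [injective_iff_map_eq_zero]
    intro f hf
    have h1 := h f
    have h2 : ∀ i, A.mulVec f i - E * f i = 0 := fun i => by
      have := congrFun hf i
      simpa using this
    simp only [h2] at h1
    have h3 : ∑ i, f i ^ 2 ≤ 0 := by
      by_contra h4
      push Not at h4
      have := mul_pos hc h4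
      simp at h1
      linarith
    have h4 : ∑ i, f i ^ 2 = 0 := le_antisymm h3 (Finset.sum_nonneg fun _ _ => sq_nonneg _)
    funext i
    have h5 := (Finset.sum_eq_zero_iff_of_nonneg fun _ _ => sq_nonneg _).1 h4 i (Finset.mem_univ i)
    simpa using h5
  obtain ⟨r, hr⟩ := (LinearMap.injective_iff_surjective.1 hinj) g
  refine ⟨r, fun x => ?_⟩
  have := congrFun hr x
  simpa using this

/-- cross-section -/
def Bx (d m : ℕ) : Finset (Fin d → ℤ) := Fintype.piFinset fun _ => Finset.Icc (-(m : ℤ)) m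

lemma mem_Bx {d m : ℕ} {y : Fin d → ℤ} : y ∈ Bx d m ↔ ∀ i, |y i| ≤ m := by
  simp [Bx, abs_le]

lemma card_Bx (d m : ℕ) : (Bx d m).card = (2 * m + 1) ^ d := by
  unfold Bx
  rw [Fintype.card_piFinset_const, Int.card_Icc]
  congr 1
  omega

instance (d m : ℕ) : Nonempty (Bx d m) := ⟨⟨0, by rw [mem_Bx]; simp⟩⟩

/-- unit vectors of the cross-section -/
abbrev eh {d : ℕ} (j : Fin d) : Fin d → ℤ := Pi.single j (1 : ℤ)

/-- the transverse operator -/
def tr (d m : ℕ) : Matrix (Bx d m) (Bx d m) ℝ := fun y y' =>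
  2 * (d + 1) * (if (y : Fin d → ℤ) = (y' : Fin d → ℤ) then 1 else 0) -
    ∑ j : Fin d, ((if (y : Fin d → ℤ) + eh j = (y' : Fin d → ℤ) then 1 else 0) +
      (if (y : Fin d → ℤ) - eh j = (y' : Fin d → ℤ) then 1 else 0))

lemma sum_ind {α : Type*} [DecidableEq α] {F : Finset α} (f : F → ℝ) (z : α) :
    ∑ y : F, (if z = (y : α) then (1 : ℝ) else 0) * f y = extR f z := by
  by_cases h : z ∈ F
  · rw [Finset.sum_eq_single (⟨z, h⟩ : F), extR_mem f h]
    · simp
    · intro y _ hy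
      rw [if_neg, zero_mul]
      rintro rfl
      exact hy rfl
    · intro h; exact absurd (Finset.mem_univ _) h
  · rw [extR_notMem f h, Finset.sum_eq_zero]
    intro y _
    rw [if_neg, zero_mul]
    rintro rfl
    exact h y.2

lemma tr_symm (d m : ℕ) : (tr d m).IsSymm := by
  ext y y'
  rw [Matrix.transpose_apply]
  unfold tr
  have h1 : ∀ j : Fin d, ((y' : Fin d → ℤ) + eh j = (y : Fin d → ℤ)) =
      ((y : Fin d → ℤ) - eh j = (y' : Fin d → ℤ)) := fun j =>
    propext ⟨fun h => by rw [← h]; simp, fun h => by rw [← h]; simp⟩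
  have h2 : ∀ j : Fin d, ((y' : Fin d → ℤ) - eh j = (y : Fin d → ℤ)) =
      ((y : Fin d → ℤ) + eh j = (y' : Fin d → ℤ)) := fun j =>
    propext ⟨fun h => by rw [← h]; simp, fun h => by rw [← h]; simp⟩
  have h3 : ((y' : Fin d → ℤ) = (y : Fin d → ℤ)) = ((y : Fin d → ℤ) = (y' : Fin d → ℤ)) := propext eq_comm
  simp only [h1, h2, h3]
  congr 1
  refine Finset.sum_congr rfl fun j _ => ?_
  ring

lemma tr_mulVec (d m : ℕ) (f : Bx d m → ℝ) (y : Bx d m) :
    (tr d m).mulVec f y = 2 * (d + 1) * f y -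
      ∑ j, (extR f ((y : Fin d → ℤ) + eh j) + extR f ((y : Fin d → ℤ) - eh j)) := by
  unfold Matrix.mulVec dotProduct tr
  simp only [sub_mul, Finset.sum_sub_distrib]
  congr 1
  · simp only [mul_assoc]
    rw [← Finset.mul_sum, ← Finset.mul_sum, sum_ind, extR_mem f y.2]
  · simp only [Finset.sum_mul, add_mul]
    rw [Finset.sum_comm]
    refine Finset.sum_congr rfl fun j _ => ?_
    rw [Finset.sum_add_distrib, sum_ind, sum_ind]

lemma sum_extR_shift_le {α : Type*} [DecidableEq α] [AddGroup α] {F : Finset α} (f : F → ℝ)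
    (e : α) : ∑ y : F, extR f (y + e) ^ 2 ≤ ∑ y, f y ^ 2 := by
  have h1 : ∑ y : F, extR f (y + e) ^ 2 = ∑ z ∈ F.map (addRightEmbedding e), extR f z ^ 2 := by
    rw [Finset.sum_map, ← Finset.sum_coe_sort F]
    rfl
  have h2 : ∑ y : F, f y ^ 2 = ∑ z ∈ F, extR f z ^ 2 := by
    rw [← Finset.sum_coe_sort F]
    refine Finset.sum_congr rfl fun y _ => ?_
    rw [extR_mem f y.2]
  rw [h1, h2]
  rw [← Finset.sum_filter_add_sum_filter_not _ (· ∈ F)]
  have h3 : ∑ z ∈ (F.map (addRightEmbedding e)).filter (· ∉ F), extR f z ^ 2 = 0 := by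
    refine Finset.sum_eq_zero fun z hz => ?_
    rw [extR_notMem f (Finset.mem_filter.1 hz).2]
    simp
  rw [h3, add_zero]
  refine Finset.sum_le_sum_of_subset_of_nonneg ?_ fun _ _ _ => sq_nonneg _
  intro z hz
  exact (Finset.mem_filter.1 hz).2

lemma tr_norm (hd : 0 < d) (m : ℕ) (f : Bx d m → ℝ) :
    ∑ y, ((tr d m).mulVec f y) ^ 2 ≤ (4 * (d + 1)) ^ 2 * ∑ y, f y ^ 2 := by
  have hpt : ∀ y : Bx d m, ((tr d m).mulVec f y) ^ 2 ≤ (2 * d + 2 * (d + 1)) *
      (∑ j, (extR f ((y : Fin d → ℤ) + eh j) ^ 2 + extR f ((y : Fin d → ℤ) + -eh j) ^ 2) +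
        2 * (d + 1) * f y ^ 2) := by
    intro y
    have h := weighted_cs hd (fun j => extR f ((y : Fin d → ℤ) + eh j))
      (fun j => extR f ((y : Fin d → ℤ) + -eh j)) (c := 2 * (d + 1)) (g := -f y) (by positivity)
    rw [tr_mulVec]
    simp only [sub_eq_add_neg (y : Fin d → ℤ)]
    rw [neg_sq] at h
    refine le_trans (le_of_eq ?_) h
    ring
  calc _ ≤ _ := Finset.sum_le_sum fun y _ => hpt y
    _ = (2 * d + 2 * (d + 1)) * (∑ j, (∑ y : Bx d m, extR f ((y : Fin d → ℤ) + eh j) ^ 2 +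
        ∑ y : Bx d m, extR f ((y : Fin d → ℤ) + -eh j) ^ 2) + 2 * (d + 1) * ∑ y, f y ^ 2) := by
      rw [← Finset.mul_sum, Finset.sum_add_distrib, Finset.sum_comm, ← Finset.mul_sum]
      simp only [Finset.sum_add_distrib]
    _ ≤ (2 * d + 2 * (d + 1)) * (∑ _j : Fin d, (∑ y, f y ^ 2 + ∑ y, f y ^ 2) +
        2 * (d + 1) * ∑ y, f y ^ 2) := by
      refine mul_le_mul_of_nonneg_left (add_le_add (Finset.sum_le_sum fun j _ =>
        add_le_add (sum_extR_shift_le f _) (sum_extR_shift_le f _)) le_rfl) (by positivity)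
    _ ≤ _ := by
      rw [Finset.sum_const, Finset.card_univ, Fintype.card_fin, nsmul_eq_mul]
      have : 0 ≤ ∑ y, f y ^ 2 := Finset.sum_nonneg fun _ _ => sq_nonneg _
      have hd' : (0 : ℝ) < d := by exact_mod_cast hd
      nlinarith

/-- the part of the horn up to the layer `n` -/
def Fh (d : ℕ) (w : ℕ → ℕ) (n : ℕ) : Finset (V d) :=
  open Classical in
  (Fintype.piFinset fun i : Fin (d + 1) =>
    if i = 0 then Finset.Icc (0 : ℤ) n else Finset.Icc (-(w n : ℤ)) (w n)).filter (· ∈ Horn d w)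

lemma mem_Fh {w : ℕ → ℕ} (hw : Monotone w) {n : ℕ} {x : V d} :
    x ∈ Fh d w n ↔ x ∈ Horn d w ∧ x 0 ≤ n := by
  classical
  unfold Fh
  rw [Finset.mem_filter, Fintype.mem_piFinset]
  constructor
  · rintro ⟨h1, h2⟩
    refine ⟨h2, ?_⟩
    have := h1 0
    simp at this
    exact this.2
  · rintro ⟨h1, h2⟩
    refine ⟨fun i => ?_, h1⟩
    by_cases hi : i = 0
    · subst hi
      simp only [if_true, Finset.mem_Icc]
      exact ⟨h1.1, h2⟩
    · simp only [hi, if_false, Finset.mem_Icc]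
      rw [← abs_le]
      refine (h1.2 i hi).trans ?_
      exact_mod_cast hw (by omega)

lemma card_Fh (w : ℕ → ℕ) (n : ℕ) : (Fh d w n).card ≤ (n + 1) * (2 * w n + 1) ^ d := by
  classical
  unfold Fh
  refine (Finset.card_filter_le _ _).trans ?_
  rw [Fintype.card_piFinset, Fin.prod_univ_succ]
  simp only [if_true, Fin.succ_ne_zero, if_false, Int.card_Icc, Finset.prod_const,
    Finset.card_univ, Fintype.card_fin]
  refine Nat.mul_le_mul (by omega) (Nat.pow_le_pow_left (by omega) _)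

/-- the point of the layer `n` over `y` -/
abbrev pt (n : ℤ) (y : Fin d → ℤ) : V d := Fin.cons n y

lemma pt_add_zero (n : ℤ) (y : Fin d → ℤ) : pt n y + ev 0 = pt (n + 1) y := by
  funext i
  refine Fin.cases ?_ (fun i => ?_) i
  · simp [pt]
  · simp [pt]

lemma pt_sub_zero (n : ℤ) (y : Fin d → ℤ) : pt n y - ev 0 = pt (n - 1) y := by
  funext i
  refine Fin.cases ?_ (fun i => ?_) i
  · simp [pt]
  · simp [pt]

lemma pt_add_succ (n : ℤ) (y : Fin d → ℤ) (j : Fin d) : pt n y + ev j.succ = pt n (y + eh j) := by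
  funext i
  refine Fin.cases ?_ (fun i => ?_) i
  · simp [pt]
  · simp [pt, Pi.single_apply]

lemma pt_sub_succ (n : ℤ) (y : Fin d → ℤ) (j : Fin d) : pt n y - ev j.succ = pt n (y - eh j) := by
  funext i
  refine Fin.cases ?_ (fun i => ?_) i
  · simp [pt]
  · simp [pt, Pi.single_apply]

lemma pt_eta (x : V d) : pt (x 0) (fun i => x i.succ) = x := by
  funext i
  refine Fin.cases ?_ (fun i => ?_) i
  · simp [pt]
  · simp [pt]

lemma pt_inj {n n' : ℤ} {y y' : Fin d → ℤ} (h : pt n y = pt n' y') : n = n' ∧ y = y' := by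
  refine ⟨?_, ?_⟩
  · have := congrFun h 0
    simpa [pt] using this
  · funext i
    have := congrFun h i.succ
    simpa [pt] using this

lemma pt_mem_Horn {w : ℕ → ℕ} {n : ℕ} {y : Fin d → ℤ} :
    pt (n : ℤ) y ∈ Horn d w ↔ y ∈ Bx d (w n) := by
  rw [mem_Bx]
  constructor
  · rintro ⟨-, h⟩ i
    have := h i.succ (Fin.succ_ne_zero i)
    simpa [pt] using this
  · intro h
    refine ⟨by simp [pt], fun i hi => ?_⟩
    obtain ⟨j, rfl⟩ := Fin.exists_succ_eq.2 hi
    have := h j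
    simpa [pt] using this

lemma hopR_pt (ω : V d → ℝ) (r : V d → ℝ) (n : ℤ) (y : Fin d → ℤ) :
    hopR ω r (pt n y) = 2 * (d + 1) * r (pt n y) - (r (pt (n + 1) y) + r (pt (n - 1) y)) -
      ∑ j, (r (pt n (y + eh j)) + r (pt n (y - eh j))) + ω (pt n y) * r (pt n y) := by
  unfold hopR
  rw [Fin.sum_univ_succ]
  simp only [pt_add_zero, pt_sub_zero, pt_add_succ, pt_sub_succ]
  have : ∑ j : Fin d, ((r (pt n (y + eh j)) - r (pt n y)) + (r (pt n (y - eh j)) - r (pt n y))) =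
      ∑ j, (r (pt n (y + eh j)) + r (pt n (y - eh j))) - 2 * d * r (pt n y) := by
    have h2 : 2 * d * r (pt n y) = ∑ _j : Fin d, 2 * r (pt n y) := by
      rw [Finset.sum_const, Finset.card_univ, Fintype.card_fin, nsmul_eq_mul]
      ring
    rw [h2, ← Finset.sum_sub_distrib]
    refine Finset.sum_congr rfl fun i _ => ?_
    ring
  rw [this]
  ring

lemma norm_toL_sq_le {S : Set (V d)} (F : Finset (V d)) (r : V d → ℝ)
    (hr : ∀ x ∉ F, r x = 0) : ‖toL S F r‖ ^ 2 ≤ ∑ x ∈ F, r x ^ 2 := by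
  classical
  have h0 : 0 ≤ ∑ x ∈ F, r x ^ 2 := Finset.sum_nonneg fun _ _ => sq_nonneg _
  have h1 : ‖toL S F r‖ ≤ √(∑ x ∈ F, r x ^ 2) := by
    refine lp.norm_le_of_forall_sum_le (by norm_num) (Real.sqrt_nonneg _) fun s => ?_
    simp only [ENNReal.toReal_ofNat, Real.rpow_ofNat]
    rw [Real.sq_sqrt h0]
    have e1 : ∀ x : S, ‖toL S F r x‖ ^ 2 = r x ^ 2 := fun x => by
      rw [toL_apply F r hr, Complex.norm_real, Real.norm_eq_abs, sq_abs]
    calc ∑ x ∈ s, ‖toL S F r x‖ ^ 2 = ∑ x ∈ s, r x ^ 2 := Finset.sum_congr rfl fun x _ => e1 x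
      _ = ∑ z ∈ s.map ⟨Subtype.val, Subtype.val_injective⟩, r z ^ 2 := by
        rw [Finset.sum_map]; rfl
      _ ≤ ∑ x ∈ F, r x ^ 2 := by
        rw [← Finset.sum_filter_add_sum_filter_not _ (· ∈ F)]
        have h3 : ∑ z ∈ (s.map ⟨Subtype.val, Subtype.val_injective⟩).filter (· ∉ F), r z ^ 2 =
            0 := by
          refine Finset.sum_eq_zero fun z hz => ?_
          rw [hr z (Finset.mem_filter.1 hz).2]
          simp
        rw [h3, add_zero]
        refine Finset.sum_le_sum_of_subset_of_nonneg ?_ fun _ _ _ => sq_nonneg _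
        intro z hz
        exact (Finset.mem_filter.1 hz).2
  calc _ ≤ √(∑ x ∈ F, r x ^ 2) ^ 2 := pow_le_pow_left₀ (norm_nonneg _) h1 2
    _ = _ := Real.sq_sqrt h0

/-- the sites of the layer `n`, as elements of the horn -/
def lay {w : ℕ → ℕ} {m n : ℕ} (h : w n = m) (y : Bx d m) : Horn d w :=
  ⟨pt (n : ℤ) y, by rw [pt_mem_Horn, h]; exact y.2⟩

/-- one window -/
theorem step {w : ℕ → ℕ} (hw : Monotone w) {ω : V d → ℝ}
    {T : lp (fun _ : Horn d w => ℂ) 2 →L[ℂ] lp (fun _ : Horn d w => ℂ) 2}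
    (hT : IsA (Horn d w) ω T) {a ℓ m : ℕ} (ha : w a = m) (hb : w (a + ℓ + 1) = m)
    (hℓ : 1 ≤ ℓ)
    {E sb c0 Kw : ℝ} (hc0 : 0 < c0) (x₀ : Horn d w) (hx₀ : (x₀ : V d) 0 ≤ a)
    (hlow : ∀ f : Fh d w (a + ℓ) → ℝ, c0 * ∑ x, f x ^ 2 ≤
      ∑ x, ((mat ω (Fh d w (a + ℓ))).mulVec f x - E * f x) ^ 2)
    (hwk : ∀ r : Fh d w (a + ℓ) → ℝ,
      (∀ x, (mat ω (Fh d w (a + ℓ))).mulVec r x - E * r x =
        if (x : V d) = x₀ then 1 else 0) →
      ∀ z : Fh d w (a + ℓ), (z : V d) 0 = a → |r z| ≤ Kw)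
    (hbar : ∀ f : ℕ → Bx d m → ℝ,
      (∀ i < ℓ, ∀ y : Bx d m, ω (pt ((a + (i + 1) : ℕ) : ℤ) (y : Fin d → ℤ)) * f (i + 1) y + (tr d m).mulVec (f (i + 1)) y -
        f i y - f (i + 2) y = E * f (i + 1) y) →
      (∀ y, f (ℓ + 1) y = 0) → ∑ y, f ℓ y ^ 2 ≤ sb ^ 2 * ∑ y, f 0 y ^ 2) :
    ∃ (r : lp (fun _ : Horn d w => ℂ) 2) (c : Bx d m → ℝ),
      T r - (E : ℂ) • r = lp.single 2 x₀ 1 + ∑ v, (c v : ℂ) • lp.single 2 (lay hb v) 1 ∧
      ‖r‖ ^ 2 ≤ 1 / c0 ∧ ∑ v, c v ^ 2 ≤ sb ^ 2 * (Fintype.card (Bx d m) * Kw ^ 2) := by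
  classical
  obtain ⟨F, hF⟩ : ∃ F, F = Fh d w (a + ℓ) := ⟨_, rfl⟩
  rw [← hF] at hlow hwk
  have hx₀F : (x₀ : V d) ∈ F := by
    rw [hF, mem_Fh hw]
    refine ⟨x₀.2, hx₀.trans ?_⟩
    push_cast
    linarith [(Nat.cast_nonneg ℓ : (0 : ℤ) ≤ ℓ)]
  obtain ⟨r0, hr0⟩ := exists_sol (mat ω F) hc0 hlow (fun x => if (x : V d) = x₀ then 1 else 0)
  have hwk' := hwk r0 hr0
  obtain ⟨r, hr⟩ : ∃ r, r = extR r0 := ⟨_, rfl⟩
  have hrF : ∀ x ∉ F, r x = 0 := fun x hx => by rw [hr]; exact extR_notMem r0 hx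
  have hmemF : ∀ {n : ℕ} {y : Fin d → ℤ}, pt (n : ℤ) y ∈ F ↔ y ∈ Bx d (w n) ∧ n ≤ a + ℓ := by
    intro n y
    rw [hF, mem_Fh hw, pt_mem_Horn]
    simp only [pt, Fin.cons_zero, Nat.cast_le]
  have heq : ∀ x ∈ F, hopR ω r x - E * r x = if x = x₀ then 1 else 0 := by
    intro x hx
    have := hr0 ⟨x, hx⟩
    rw [mat_mulVec] at this
    rw [hr]
    rw [extR_mem r0 hx]
    exact this
  have hwm : ∀ i, i ≤ ℓ + 1 → w (a + i) = m := by
    intro i hi
    apply le_antisymm
    · rw [← hb]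
      exact hw (by omega)
    · rw [← ha]
      exact hw (by omega)
  obtain ⟨f, hf⟩ : ∃ f : ℕ → Bx d m → ℝ, f = fun i (y : Bx d m) =>
    r (pt ((a + i : ℕ) : ℤ) (y : Fin d → ℤ)) := ⟨_, rfl⟩
  have hfz : ∀ y, f (ℓ + 1) y = 0 := by
    intro y
    rw [hf]
    refine hrF _ ?_
    rw [hmemF]
    omega
  have hext : ∀ i ≤ ℓ + 1, ∀ y : Fin d → ℤ, extR (f i) y = r (pt ((a + i : ℕ) : ℤ) y) := by
    intro i hi y
    by_cases hy : y ∈ Bx d m
    · rw [extR_mem (f i) hy, hf]
    · rw [extR_notMem (f i) hy, hrF]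
      rw [hmemF, hwm i hi]
      exact fun h => hy h.1
  have hbar' := hbar f (by
    intro i hi y
    have hxF : pt ((a + (i + 1) : ℕ) : ℤ) (y : Fin d → ℤ) ∈ F := by
      rw [hmemF, hwm _ (by omega)]
      exact ⟨y.2, by omega⟩
    have h1 := heq _ hxF
    rw [if_neg, hopR_pt] at h1
    · rw [tr_mulVec]
      simp only [hext _ (by omega : i + 1 ≤ ℓ + 1)]
      have e0 : f (i + 1) y = r (pt ((a + (i + 1) : ℕ) : ℤ) y) := by rw [hf]
      have e1 : f i y = r (pt (((a + (i + 1) : ℕ) : ℤ) - 1) y) := by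
        rw [hf, show ((a + (i + 1) : ℕ) : ℤ) - 1 = ((a + i : ℕ) : ℤ) by push_cast; ring]
      have e2 : f (i + 2) y = r (pt (((a + (i + 1) : ℕ) : ℤ) + 1) y) := by
        rw [hf, show ((a + (i + 1) : ℕ) : ℤ) + 1 = ((a + (i + 2) : ℕ) : ℤ) by push_cast; ring]
      rw [e0, e1, e2]
      linarith
    · intro h
      have h2 := congrFun h 0
      simp only [pt, Fin.cons_zero] at h2
      rw [← h2] at hx₀
      push_cast at hx₀
      linarith [(Nat.cast_nonneg i : (0 : ℤ) ≤ i)]) hfz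
  refine ⟨toL (Horn d w) F r, fun v => -f ℓ v, ?_, ?_, ?_⟩
  · ext z
    rw [lp.coeFn_sub, Pi.sub_apply, lp.coeFn_add, Pi.add_apply, lp.coeFn_smul, Pi.smul_apply,
      lp.coeFn_sum, Finset.sum_apply, hT.toL F _ r hrF, toL_apply F r hrF, smul_eq_mul]
    · simp only [lp.coeFn_smul, Pi.smul_apply, smul_eq_mul, lp.single_apply]
      by_cases hz : (z : V d) ∈ F
      · have h1 := heq _ hz
        have h2 : ∑ v : Bx d m, ((-f ℓ v : ℝ) : ℂ) * (Pi.single (lay hb v) (1 : ℂ) :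
            Horn d w → ℂ) z = 0 := by
          refine Finset.sum_eq_zero fun v _ => ?_
          rw [Pi.single_eq_of_ne, mul_zero]
          rintro rfl
          have : pt ((a + ℓ + 1 : ℕ) : ℤ) (v : Fin d → ℤ) ∈ F := hz
          rw [hmemF] at this
          omega
        rw [h2, add_zero]
        rw [← Complex.ofReal_mul, ← Complex.ofReal_sub, h1]
        by_cases h3 : z = x₀
        · rw [h3]; simp
        · rw [Pi.single_eq_of_ne h3, if_neg fun h => h3 (Subtype.ext h)]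
          simp
      · have hzz : z ≠ x₀ := by rintro rfl; exact hz hx₀F
        rw [hrF _ hz, Pi.single_eq_of_ne hzz]
        have hz0 : ((a + ℓ : ℕ) : ℤ) < (z : V d) 0 := by
          by_contra h
          push Not at h
          exact hz (by rw [hF, mem_Fh hw]; exact ⟨z.2, h⟩)
        have hup : ∀ (n : ℤ) (y : Fin d → ℤ), ((a + ℓ : ℕ) : ℤ) < n → r (pt n y) = 0 := by
          intro n y hn
          refine hrF _ ?_
          rw [hF, mem_Fh hw]
          rintro ⟨-, h⟩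
          simp only [pt, Fin.cons_zero] at h
          linarith
        have hzp := pt_eta (z : V d)
        have hh : hopR ω r z = -r (pt ((z : V d) 0 - 1) fun i => (z : V d) i.succ) := by
          conv_lhs => rw [← hzp]
          rw [hopR_pt, hup _ _ hz0, hup _ _ (by linarith)]
          have : ∑ j : Fin d, (r (pt ((z : V d) 0) ((fun i => (z : V d) i.succ) + eh j)) +
              r (pt ((z : V d) 0) ((fun i => (z : V d) i.succ) - eh j))) = 0 := by
            refine Finset.sum_eq_zero fun j _ => ?_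
            rw [hup _ _ hz0, hup _ _ hz0, add_zero]
          rw [this]
          ring
        rw [hh]
        by_cases hz1 : (z : V d) 0 = ((a + ℓ + 1 : ℕ) : ℤ)
        · have hy : (fun i => (z : V d) i.succ) ∈ Bx d m := by
            have h5 := z.2
            rw [← hzp, hz1, pt_mem_Horn, hb] at h5
            exact h5
          have hzl : z = lay hb ⟨_, hy⟩ := by
            apply Subtype.ext
            change (z : V d) = pt ((a + ℓ + 1 : ℕ) : ℤ) _
            conv_lhs => rw [← hzp, hz1]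
          rw [Finset.sum_eq_single (⟨_, hy⟩ : Bx d m)]
          · rw [← hzl, Pi.single_eq_same, hz1]
            have e3 : f ℓ ⟨_, hy⟩ = r (pt (((a + ℓ + 1 : ℕ) : ℤ) - 1)
                fun i => (z : V d) i.succ) := by
              rw [hf, show ((a + ℓ + 1 : ℕ) : ℤ) - 1 = ((a + ℓ : ℕ) : ℤ) by push_cast; ring]
            rw [e3]
            simp
          · intro v _ hv
            rw [Pi.single_eq_of_ne, mul_zero]
            intro h6
            rw [hzl] at h6
            have h7 := pt_inj (congrArg Subtype.val h6)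
            exact hv (Subtype.ext h7.2.symm)
          · intro h; exact absurd (Finset.mem_univ _) h
        · rw [hup _ _ (by push_cast at hz0 hz1 ⊢; omega)]
          have h2 : ∑ v : Bx d m, ((-f ℓ v : ℝ) : ℂ) * (Pi.single (lay hb v) (1 : ℂ) :
              Horn d w → ℂ) z = 0 := by
            refine Finset.sum_eq_zero fun v _ => ?_
            rw [Pi.single_eq_of_ne, mul_zero]
            rintro rfl
            apply hz1
            simp [lay, pt]
          rw [h2]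
          simp
    · intro x hx
      rw [hF, mem_Fh hw] at hx
      exact hx.1
  · refine (norm_toL_sq_le F r hrF).trans ?_
    have h1 := hlow r0
    have h2 : ∑ x : F, ((mat ω F).mulVec r0 x - E * r0 x) ^ 2 = 1 := by
      simp only [hr0]
      rw [Finset.sum_eq_single (⟨x₀, hx₀F⟩ : F)]
      · simp
      · intro b _ hb
        rw [if_neg]
        · simp
        · intro h; exact hb (Subtype.ext h)
      · intro h; exact absurd (Finset.mem_univ _) h
    rw [h2] at h1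
    have h3 : ∑ x ∈ F, r x ^ 2 = ∑ x : F, r0 x ^ 2 := by
      rw [← Finset.sum_coe_sort F]
      refine Finset.sum_congr rfl fun y _ => ?_
      rw [hr, extR_mem r0 y.2]
    rw [h3, le_div_iff₀ hc0]
    linarith
  · have h1 : ∑ v, (-f ℓ v) ^ 2 = ∑ v, f ℓ v ^ 2 := by simp
    rw [h1]
    refine hbar'.trans (mul_le_mul_of_nonneg_left ?_ (sq_nonneg _))
    calc ∑ y, f 0 y ^ 2 ≤ ∑ _y : Bx d m, Kw ^ 2 := by
          refine Finset.sum_le_sum fun y _ => ?_
          have hyF : pt ((a + 0 : ℕ) : ℤ) (y : Fin d → ℤ) ∈ F := by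
            rw [hmemF, hwm _ (by omega)]
            exact ⟨y.2, by omega⟩
          have h2 := hwk' ⟨_, hyF⟩ (by simp [pt])
          rw [hf, hr]
          simp only
          rw [extR_mem r0 hyF, ← sq_abs]
          exact pow_le_pow_left₀ (abs_nonneg _) h2 2
      _ = _ := by rw [Finset.sum_const, Finset.card_univ, nsmul_eq_mul]

end Pool.Agent.Q234.AH
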